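import Pool.Agent.V7H5.TS.Main

/-!
# Galois actions given by functions
-/

open CategoryTheory AlgebraicGeometry TensorProduct Filter Topology

open scoped ENNReal

universe u v w

namespace Pool.Agent.V7H5.TS

section Alg

variable {K : Type*} [Field K] {A B : Type*} [Ring A] [Algebra K A] [Ring B] [Algebra K B]
  {Γ : Type*} [Group Γ] {χ : Γ → K} {gr : ℕ → Submodule K A} {d : ℕ} {tr : A →ₗ[K] K}
  {C : ℕ → Set A} {ρ : Γ → A → A}

/-- The character as a homomorphism. -/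
noncomputable def toChi (h : χ 1 = 1 ∧ ∀ g h, χ (g * h) = χ g * χ h) : Γ →* Kˣ :=
  MonoidHom.toHomUnits { toFun := χ, map_one' := h.1, map_mul' := h.2 }

lemma toChi_apply (h : χ 1 = 1 ∧ ∀ g h, χ (g * h) = χ g * χ h) (g : Γ) :
    ((toChi h g : Kˣ) : K) = χ g := rfl

/-- The action as a homomorphism. -/
noncomputable def toRho (h2 : ρ 1 = id ∧ ∀ g h, ρ (g * h) = ρ g ∘ ρ h)
    (h3 : ∀ g, ∃ f : A →ₐ[K] A, ⇑f = ρ g) : Γ →* (A ≃ₐ[K] A) where
  toFun g := AlgEquiv.ofAlgHom (h3 g).choose (h3 g⁻¹).choose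
    (AlgHom.ext fun a => by
      change (h3 g).choose ((h3 g⁻¹).choose a) = a
      rw [(h3 g).choose_spec, (h3 g⁻¹).choose_spec]
      have h4 := congrFun (h2.2 g g⁻¹) a
      rw [mul_inv_cancel, h2.1] at h4
      exact h4.symm)
    (AlgHom.ext fun a => by
      change (h3 g⁻¹).choose ((h3 g).choose a) = a
      rw [(h3 g).choose_spec, (h3 g⁻¹).choose_spec]
      have h4 := congrFun (h2.2 g⁻¹ g) a
      rw [inv_mul_cancel, h2.1] at h4
      exact h4.symm)
  map_one' := AlgEquiv.ext fun a => by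
    change (h3 1).choose a = a
    rw [(h3 1).choose_spec, h2.1]
    rfl
  map_mul' g h := AlgEquiv.ext fun a => by
    change (h3 (g * h)).choose a = (h3 g).choose ((h3 h).choose a)
    rw [(h3 (g * h)).choose_spec, (h3 g).choose_spec, (h3 h).choose_spec, h2.2]
    rfl

lemma toRho_apply (h2 : ρ 1 = id ∧ ∀ g h, ρ (g * h) = ρ g ∘ ρ h)
    (h3 : ∀ g, ∃ f : A →ₐ[K] A, ⇑f = ρ g) (g : Γ) (a : A) : toRho h2 h3 g a = ρ g a :=
  congrFun (h3 g).choose_spec a

end Alg

/-- If the inverse quotients tend to infinity the quotients tend to zero. -/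
lemma densityZero_of {s t : ℕ → ℕ}
    (h : Tendsto (fun n => (t n : ℝ≥0∞) / s n) atTop (𝓝 ⊤)) : DensityZero s t := by
  have h1 : Tendsto (fun n => ((t n : ℝ≥0∞) / s n)⁻¹) atTop (𝓝 0) := by
    have h2 := tendsto_inv_iff.2 h
    rwa [ENNReal.inv_top] at h2
  have h2 : Tendsto (fun n => ((s n : ℝ≥0∞) / t n)) atTop (𝓝 0) := by
    refine h1.congr' ?_
    filter_upwards [h.eventually (lt_mem_nhds (ENNReal.zero_lt_top))] with n hn
    refine ENNReal.inv_div (Or.inl (ENNReal.natCast_ne_top _)) (Or.inr fun h0 => ?_)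
    rw [h0, ENNReal.zero_div] at hn
    exact lt_irrefl _ hn
  have h3 := (ENNReal.tendsto_toReal ENNReal.zero_ne_top).comp h2
  rw [ENNReal.toReal_zero] at h3
  refine h3.congr fun n => ?_
  change ((s n : ℝ≥0∞) / t n).toReal = _
  rw [ENNReal.toReal_div, ENNReal.toReal_natCast, ENNReal.toReal_natCast]

end Pool.Agent.V7H5.TS
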