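import Pool.Agent.V7H5.TH.CDefs
import Pool.Agent.Y133.Half.HdgDefs

/-!
# Hodge classes and Tate classes on the powers of a variety: definitions
-/

open CategoryTheory AlgebraicGeometry Filter Topology

universe u v w

namespace Pool.Agent.V7H5.TS

section Alg

variable {K : Type*} [Field K] {A B : Type*} [Ring A] [Algebra K A] [Ring B] [Algebra K B]
  {Γ : Type*} [Group Γ]

/-- The element `c` is a Tate class of codimension `j` for the action `ρ` of the group `Γ`: it has degree
`2 * j`, and `ρ g c = χ g ^ j • c` for all `g` in a subgroup of finite index. -/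
def IsTateElt (χ : Γ → K) (gr : ℕ → Submodule K A) (ρ : Γ → A → A) (j : ℕ) (c : A) : Prop :=
  c ∈ gr (2 * j) ∧ ∃ Δ : Subgroup Γ, Δ.FiniteIndex ∧ ∀ g ∈ Δ, ρ g c = χ g ^ j • c

/-- The formal properties of the action `ρ` of a Galois group `Γ` on the cohomology algebra `A` of a
variety of dimension `d` over an algebraically closed field, where `χ` is the inverse of the cyclotomic
character, and `C j` is the set of the classes of algebraic cycles of codimension `j`. -/
structure IsGalois (χ : Γ → K) (gr : ℕ → Submodule K A) (d : ℕ) (tr : A →ₗ[K] K)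
    (C : ℕ → Set A) (ρ : Γ → A → A) : Prop where
  character : χ 1 = 1 ∧ ∀ g h, χ (g * h) = χ g * χ h
  action : ρ 1 = id ∧ ∀ g h, ρ (g * h) = ρ g ∘ ρ h
  algebra : ∀ g, ∃ f : A →ₐ[K] A, ⇑f = ρ g
  degree : ∀ g i, ∀ a ∈ gr i, ρ g a ∈ gr i
  trace : ∀ g a, tr (ρ g a) = χ g ^ d * tr a
  cycles : ∀ g j, ∀ c ∈ C j, ∃ c' ∈ C j, ρ g c = χ g ^ j • c'
  fixed : ∀ j, ∀ c ∈ C j, IsTateElt χ gr ρ j c

/-- The homomorphism `f` commutes with the actions. -/
def Equivar (f : A →ₐ[K] B) (ρ : Γ → A → A) (ρ' : Γ → B → B) : Prop :=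
  ∀ g a, ρ' g (f a) = f (ρ g a)

end Alg

open Pool.Agent.H914 Pool.Agent.H914.VarClass Pool.Agent.H914.VarClass.Obj
  Pool.Agent.H914.WeilCohomology Pool.Agent.Y129 Pool.Agent.Y133.Hdg Pool.Agent.V7H5.TH

variable {k : Type u} [Field k] {𝒱 : VarClass k} {ops : CycleOps 𝒱}
  {W W' : WeilCohomology.{u, v} ops} {X : 𝒱.Obj}

/-- A group which acts on the cohomology algebras of all powers of `X` like a Galois group, compatibly
with the projections to the factors (`pw X n` is the product of `n + 1` copies of `X`). -/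
structure GaloisAct (W : WeilCohomology.{u, v} ops) (X : 𝒱.Obj) where
  /-- the group -/
  Γ : Type w
  [group : Group Γ]
  /-- the character -/
  χ : Γ → W.K
  /-- the action on the cohomology of the product of `n + 1` copies of `X` -/
  ρ : ∀ n, Γ → W.H (pw X n) → W.H (pw X n)
  galois : ∀ n, IsGalois χ (W.gr (pw X n)) (pw X n).dim (W.tr (pw X n))
    (algClasses W (pw X n)) (ρ n)
  proj : ∀ n i, Equivar (A := W.H X) (B := W.H (pw X n)) (W.map (pj X n i)) (ρ 0) (ρ n)

attribute [instance] GaloisAct.group

/-- The Tate classes of codimension `j` on the product of `n + 1` copies of `X`. -/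
def IsTate (G : GaloisAct.{u, v, w} W' X) (n j : ℕ) (c : W'.H (pw X n)) : Prop :=
  IsTateElt G.χ (W'.gr (pw X n)) (G.ρ n) j c

/-- The Tate conjecture holds in all codimensions for all powers of `X`. -/
def TateConj (G : GaloisAct.{u, v, w} W' X) : Prop :=
  ∀ n j c, IsTate G n j c → c ∈ Submodule.span W'.K (algClasses W' (pw X n) j)

/-- The dimension of the space spanned by the Tate classes of all codimensions on the product of
`n + 1` copies of `X`. -/
noncomputable def tateDim (G : GaloisAct.{u, v, w} W' X) (n : ℕ) : ℕ :=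
  Set.finrank W'.K {c | ∃ j, IsTate G n j c}

/-- The dimension of the space spanned by the classes of algebraic cycles on the product of `n + 1`
copies of `X`. -/
noncomputable def algDim (W : WeilCohomology.{u, v} ops) (X : 𝒱.Obj) (n : ℕ) : ℕ :=
  Set.finrank W.K {c | ∃ j, c ∈ algClasses W (pw X n) j}

/-- The quotients `s n / t n` tend to zero. -/
def DensityZero (s t : ℕ → ℕ) : Prop := Tendsto (fun n => (s n : ℝ) / t n) atTop (𝓝 0)

variable [Algebra W.K ℝ]

/-- The Hodge conjecture holds in all codimensions for all powers of `X`. -/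
def HodgeConj (Ψ : HodgeStr W) (X : 𝒱.Obj) : Prop :=
  ∀ n j a, IsHodge Ψ (pw X n) j a → a ∈ Submodule.span W.K (algClasses W (pw X n) j)

/-- The dimension of the space spanned by the Hodge classes of all codimensions on the product of
`n + 1` copies of `X`. -/
noncomputable def hodgeDim (Ψ : HodgeStr W) (X : 𝒱.Obj) (n : ℕ) : ℕ :=
  Set.finrank W.K {a | ∃ j, IsHodge Ψ (pw X n) j a}

/-- All Hodge classes on all powers of `X` are Tate classes. -/
def HodgeInTate (Ψ : HodgeStr W) (C : Comparison W W') (G : GaloisAct.{u, v, w} W' X) : Prop :=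
  ∀ n j a, IsHodge Ψ (pw X n) j a → IsTate G n j (C.φ (pw X n) a)

/-- All Tate classes on all powers of `X` are linear combinations of Hodge classes. -/
def TateInHodge (Ψ : HodgeStr W) (C : Comparison W W') (G : GaloisAct.{u, v, w} W' X) : Prop :=
  ∀ n j c, IsTate G n j c →
    c ∈ Submodule.span W'.K (C.φ (pw X n) '' {a | IsHodge Ψ (pw X n) j a})

/-- The dimension of the space spanned by the Hodge classes of all codimensions on the product of
`n + 1` copies of `X` which are Tate classes. -/
noncomputable def hodgeTateDim (Ψ : HodgeStr W) (C : Comparison W W')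
    (G : GaloisAct.{u, v, w} W' X) (n : ℕ) : ℕ :=
  Set.finrank W.K {a | ∃ j, IsHodge Ψ (pw X n) j a ∧ IsTate G n j (C.φ (pw X n) a)}

end Pool.Agent.V7H5.TS
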