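import Pool.Agent.V7H5.TS.Conv

/-!
# The zero-one law for Hodge classes and Tate classes: the final form
-/

open CategoryTheory AlgebraicGeometry TensorProduct Filter Topology

open scoped ENNReal

universe u v w

namespace Pool.Agent.V7H5.TS

open Module
open Pool.Agent.H914 Pool.Agent.H914.VarClass Pool.Agent.H914.VarClass.Obj
  Pool.Agent.H914.WeilCohomology Pool.Agent.H281R3.HT Pool.Agent.TH125.Gal
open Pool.Agent.V7H5.TI hiding IsTate DensityZero
open Pool.Agent.V7H5.TH hiding HodgeInTate TateInHodge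
open Pool.Agent.Y133.Half hiding pw cycRank IsHodge hodgeDim HodgeIn algDim tateDim
open Pool.Agent.Y129 (pw TG PowerAction tateClasses)
open Pool.Agent.Y133.Hdg (HodgeStr IsHodge)

variable {k : Type u} [Field k] {𝒱 : VarClass k} {ops : CycleOps 𝒱}
  {W W' : WeilCohomology.{u, v} ops} {X Y Z : 𝒱.Obj}

/-- Classes of even degree are determined by their components. -/
lemma mem_of_proj {c : W.H Y} (hc : c ∈ PH W Y 0) {P : Submodule W.K (W.H Y)}
    (h : ∀ j, proj (W.isInternal Y) (2 * j) c ∈ P) : c ∈ P := by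
  have hN : ∀ i, 2 * Y.dim + 1 ≤ i → W.gr Y i = ⊥ := fun i hi => W.gr_eq_bot Y i (by omega)
  have h1 := LinearMap.congr_fun (sum_proj (W.isInternal Y) hN) c
  rw [LinearMap.sum_apply, Module.End.one_apply] at h1
  rw [← h1]
  refine Submodule.sum_mem _ fun i _ => ?_
  rcases Nat.even_or_odd i with ⟨j, hj⟩ | ⟨j, hj⟩
  · obtain rfl : i = 2 * j := by omega
    exact h j
  · have h2 : proj (W.isInternal Y) i c = 0 := by
      refine PH.ind (p := fun c => proj (W.isInternal Y) i c = 0) ?_ ?_ ?_ hc
      · intro l hl x hx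
        exact proj_ne _ hx (by omega)
      · rw [map_zero]
      · intro x y hx hy
        rw [map_add, hx, hy, add_zero]
    rw [h2]
    exact Submodule.zero_mem _

namespace GaloisAct

variable (G : GaloisAct.{u, v, w} W X)

/-- The character. -/
noncomputable def chi : G.Γ →* W.Kˣ := toChi (G.galois 0).character

/-- The actions. -/
noncomputable def rho (n : ℕ) : G.Γ →* (W.H (pw X n) ≃ₐ[W.K] W.H (pw X n)) :=
  toRho (G.galois n).action (G.galois n).algebra

lemma chi_apply (g : G.Γ) : ((G.chi g : W.Kˣ) : W.K) = G.χ g := rfl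

lemma rho_apply (n : ℕ) (g : G.Γ) (a : W.H (pw X n)) : G.rho n g a = G.ρ n g a :=
  toRho_apply _ _ g a

/-- The actions are Galois actions in the sense of the library. -/
lemma isAction : PowerAction W X G.chi G.rho where
  galois n :=
    { gr_mem := fun g i a ha => by
        rw [rho_apply]
        exact (G.galois n).degree g i a ha
      tr_act := fun g a => by
        rw [rho_apply]
        exact (G.galois n).trace g a
      cl_act := fun g j c hc => by
        obtain ⟨c', h1, h2⟩ := (G.galois n).cycles g j c hc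
        exact ⟨c', h1, by rw [rho_apply]; exact h2⟩
      cl_fix := fun j c hc => by
        obtain ⟨-, Δ, h1, h2⟩ := (G.galois n).fixed j c hc
        exact ⟨Δ, h1, fun g hg => by rw [rho_apply]; exact h2 g hg⟩ }
  proj n i g a := by
    have h1 : G.rho 0 g a = G.ρ 0 g a := G.rho_apply 0 g a
    have h2 := G.proj n i g a
    rw [rho_apply]
    exact h2.trans (congrArg (W.map (Pool.Agent.Y129.pj X n i)) h1.symm)

lemma isTate_iff (n j : ℕ) (c : W.H (pw X n)) :
    IsTate G n j c ↔ c ∈ tateClasses G.chi (W.gr (pw X n)) (G.rho n) j := by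
  constructor
  · rintro ⟨h1, Δ, h2, h3⟩
    exact ⟨h1, Δ, h2, fun g hg => by rw [rho_apply]; exact h3 g hg⟩
  · rintro ⟨h1, Δ, h2, h3⟩
    refine ⟨h1, Δ, h2, fun g hg => ?_⟩
    have h4 := h3 g hg
    rw [rho_apply] at h4
    exact h4

/-- The system of the Tate classes. -/
noncomputable abbrev sys : Sys W := extSys (powSys_TG G.isAction)

lemma mem_sys {n j : ℕ} {c : W.H (pw X n)} (h : IsTate G n j c) : c ∈ G.sys.C (pw X n) := by
  rw [extSys_pw]
  exact Submodule.mem_iSup_of_mem j ((G.isTate_iff n j c).1 h)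

lemma proj_sys {n : ℕ} {c : W.H (pw X n)} (h : c ∈ G.sys.C (pw X n)) (j : ℕ) :
    IsTate G n j (Pool.Agent.H914.proj (W.isInternal (pw X n)) (2 * j) c) := by
  rw [extSys_pw] at h
  exact (G.isTate_iff n j _).2 (TG_proj h j)

lemma finrank_sys (n : ℕ) : finrank W.K (G.sys.C (pw X n)) = tateDim G n := by
  have h1 : G.sys.C (pw X n) = Submodule.span W.K {c | ∃ j, IsTate G n j c} := by
    apply le_antisymm
    · intro c hc
      exact mem_of_proj (G.sys.even hc) fun j => Submodule.subset_span ⟨j, G.proj_sys hc j⟩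
    · refine Submodule.span_le.2 ?_
      rintro c ⟨j, hj⟩
      exact G.mem_sys hj
  rw [h1]
  rfl

end GaloisAct

section Hodge

variable [Algebra W.K ℝ] (Ψ : HodgeStr W) (C : Comparison W W') (G : GaloisAct.{u, v, w} W' X)

lemma finrank_hodgeSys (n : ℕ) :
    finrank W.K ((hodgeSys Ψ.sys).C (pw X n)) = TS.hodgeDim Ψ X n := rfl

lemma mem_HT {n j : ℕ} {a : W.H (pw X n)} (h1 : IsHodge Ψ (pw X n) j a)
    (h2 : IsTate G n j (C.φ (pw X n) a)) :
    a ∈ (HT Ψ.sys C.toCmpn G.isAction).C (pw X n) :=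
  mem_ht.2 ⟨hodgeSpan.of h1, G.mem_sys h2⟩

lemma proj_HT {n : ℕ} {a : W.H (pw X n)}
    (h : a ∈ (HT Ψ.sys C.toCmpn G.isAction).C (pw X n)) (j : ℕ) :
    IsHodge Ψ (pw X n) j (proj (W.isInternal (pw X n)) (2 * j) a) ∧
      IsTate G n j (C.φ (pw X n) (proj (W.isInternal (pw X n)) (2 * j) a)) := by
  obtain ⟨h1, h2⟩ := mem_ht.1 h
  refine ⟨hodgeSpan.proj h1 j, ?_⟩
  have h3 := G.proj_sys h2 j
  rw [← C.toCmpn.proj] at h3
  exact h3

lemma finrank_HT (n : ℕ) : finrank W.K ((HT Ψ.sys C.toCmpn G.isAction).C (pw X n)) =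
    hodgeTateDim Ψ C G n := by
  have h1 : (HT Ψ.sys C.toCmpn G.isAction).C (pw X n) = Submodule.span W.K
      {a | ∃ j, IsHodge Ψ (pw X n) j a ∧ IsTate G n j (C.φ (pw X n) a)} := by
    apply le_antisymm
    · intro c hc
      exact mem_of_proj ((HT Ψ.sys C.toCmpn G.isAction).even hc) fun j =>
        Submodule.subset_span ⟨j, proj_HT Ψ C G hc j⟩
    · refine Submodule.span_le.2 ?_
      rintro c ⟨j, hj, hj'⟩
      exact mem_HT Ψ C G hj hj'
  rw [h1]
  rfl

/-- **Hodge classes are Tate classes, or the common classes have density zero.** -/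
theorem hodge_law [Nontrivial (W.H X)] :
    HodgeInTate Ψ C G ∨ DensityZero (hodgeTateDim Ψ C G) (TS.hodgeDim Ψ X) := by
  refine or_iff_not_imp_right.2 fun hd n j a ha => ?_
  have h1 := hodge_or Ψ.sys C.toCmpn G.isAction (fun ht => hd (densityZero_of ?_))
    (IsPw.of X n) (hodgeSpan.of ha)
  · have h2 := G.proj_sys h1 j
    rw [← C.toCmpn.proj, proj_same _ ha.1] at h2
    exact h2
  · simp only [finrank_HT, finrank_hodgeSys] at ht
    exact ht

/-- **Tate classes are combinations of Hodge classes, or the common classes have density zero.** -/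
theorem tate_law [Nontrivial (W.H X)] :
    TateInHodge Ψ C G ∨ DensityZero (hodgeTateDim Ψ C G) (tateDim G) := by
  refine or_iff_not_imp_right.2 fun hd n j c hc => ?_
  have h1 := tate_or Ψ.sys C.toCmpn G.isAction (fun ht => hd (densityZero_of ?_))
    (IsPw.of X n) (G.mem_sys hc)
  · have h3 : proj (W'.isInternal (pw X n)) (2 * j) c = c := proj_same _ hc.1
    rw [← h3]
    have key : ∀ x ∈ Submodule.span W'.K (C.φ (pw X n) '' ((hodgeSys Ψ.sys).C (pw X n))),
        proj (W'.isInternal (pw X n)) (2 * j) x ∈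
        Submodule.span W'.K (C.φ (pw X n) '' {a | IsHodge Ψ (pw X n) j a}) := by
      intro x hx
      induction hx using Submodule.span_induction with
      | mem x hx =>
        obtain ⟨a, ha, rfl⟩ := hx
        have h4 := C.toCmpn.proj (i := 2 * j) (a := a)
        rw [show C.φ (pw X n) a = C.toCmpn.φ (pw X n) a from rfl, ← C.toCmpn.proj]
        exact Submodule.subset_span ⟨_, hodgeSpan.proj ha j, rfl⟩
      | zero => rw [map_zero]; exact Submodule.zero_mem _
      | add x y _ _ hx hy =>
        rw [map_add]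
        exact Submodule.add_mem _ hx hy
      | smul r x _ hx =>
        rw [map_smul]
        exact Submodule.smul_mem _ _ hx
    exact key c h1
  · simp only [finrank_HT, G.finrank_sys] at ht
    exact ht

/-- Classes of algebraic cycles are Hodge classes. -/
lemma alg_isHodge {n j : ℕ} {a : W.H (pw X n)} (h : a ∈ algClasses W (pw X n) j) :
    IsHodge Ψ (pw X n) j a := by
  obtain ⟨z, hz, rfl⟩ := h
  exact Pool.Agent.Y133.Hdg.isHodge_iff.2 (Pool.Agent.Y133.Half.IsHodge.cl hz)

omit [Algebra W.K ℝ] in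
/-- The comparison of the classes of algebraic cycles. -/
lemma alg_cmp {n j : ℕ} {a : W.H (pw X n)} (h : a ∈ algClasses W (pw X n) j) :
    C.φ (pw X n) a ∈ algClasses W' (pw X n) j := by
  obtain ⟨z, hz, rfl⟩ := h
  rw [C.cl]
  exact ⟨z, hz, rfl⟩

/-- If all Hodge classes which are Tate classes are algebraic. -/
lemma hodgeTateDim_eq (h : ∀ n j a, IsHodge Ψ (pw X n) j a → IsTate G n j (C.φ (pw X n) a) →
    a ∈ Submodule.span W.K (algClasses W (pw X n) j)) (n : ℕ) :
    hodgeTateDim Ψ C G n = algDim W X n := by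
  have h1 : Submodule.span W.K
      {a | ∃ j, IsHodge Ψ (pw X n) j a ∧ IsTate G n j (C.φ (pw X n) a)} =
      Submodule.span W.K {a | ∃ j, a ∈ algClasses W (pw X n) j} := by
    apply le_antisymm
    · refine Submodule.span_le.2 ?_
      rintro c ⟨j, hj, hj'⟩
      have h2 : algClasses W (pw X n) j ⊆ {a | ∃ j, a ∈ algClasses W (pw X n) j} :=
        fun x hx => ⟨j, hx⟩
      exact Submodule.span_mono h2 (h n j c hj hj')
    · refine Submodule.span_mono ?_
      rintro c ⟨j, hj⟩
      exact ⟨j, alg_isHodge Ψ hj, (G.galois n).fixed j _ (alg_cmp C hj)⟩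
  change finrank W.K (Submodule.span W.K _) = finrank W.K (Submodule.span W.K _)
  rw [h1]

include C in
/-- **The Hodge conjecture and the Tate conjecture.** -/
theorem hodge_to_tate [Nontrivial (W.H X)] (hH : HodgeConj Ψ X) :
    TateConj G ∨ DensityZero (algDim W X) (tateDim G) := by
  have h1 : hodgeTateDim Ψ C G = algDim W X := funext
    (hodgeTateDim_eq Ψ C G fun n j a ha _ => hH n j a ha)
  rw [← h1]
  refine (tate_law Ψ C G).imp_left fun h2 n j c hc => ?_
  refine Submodule.span_le.2 ?_ (h2 n j c hc)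
  rintro _ ⟨a, ha, rfl⟩
  have h3 := hH n j a ha
  change C.φ (pw X n) a ∈ Submodule.span W'.K (algClasses W' (pw X n) j)
  clear hc ha
  induction h3 using Submodule.span_induction with
  | mem x hx => exact Submodule.subset_span (alg_cmp C hx)
  | zero =>
    have h4 : C.φ (pw X n) 0 = 0 := map_zero (C.toCmpn.φ (pw X n))
    rw [h4]; exact Submodule.zero_mem _
  | add x y _ _ hx hy => rw [(C.ext _).add]; exact Submodule.add_mem _ hx hy
  | smul r x _ hx => rw [(C.ext _).smul]; exact Submodule.smul_mem _ _ hx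

include C in
/-- **The Tate conjecture and the Hodge conjecture.** -/
theorem tate_to_hodge [Nontrivial (W.H X)] (hT : TateConj G) :
    HodgeConj Ψ X ∨ DensityZero (algDim W X) (TS.hodgeDim Ψ X) := by
  let _ : Algebra W.K W'.K := C.emb.toAlgebra
  have he : ∀ r, C.toCmpn.emb r = algebraMap W.K W'.K r := fun r => rfl
  have hd : ∀ n j a, IsTate G n j (C.φ (pw X n) a) →
      a ∈ Submodule.span W.K (algClasses W (pw X n) j) := by
    intro n j a ha
    apply descend C.toCmpn he
    refine Submodule.span_mono ?_ (hT n j _ ha)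
    rintro _ ⟨z, hz, rfl⟩
    exact ⟨W.cl _ z, Submodule.subset_span ⟨z, hz, rfl⟩, C.cl _ z⟩
  have h1 : hodgeTateDim Ψ C G = algDim W X := funext
    (hodgeTateDim_eq Ψ C G fun n j a _ ha => hd n j a ha)
  rw [← h1]
  exact (hodge_law Ψ C G).imp_left fun h2 n j a ha => hd n j a (h2 n j a ha)

end Hodge

end Pool.Agent.V7H5.TS
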