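import Pool.Agent.V7H5.TS.Gen
import Pool.Agent.V7H5.TH.HMain

/-!
# Group-like classes for comultiplications in a system
-/

open CategoryTheory AlgebraicGeometry TensorProduct

universe u v w

namespace Pool.Agent.V7H5.TS

open Module
open Pool.Agent.H914 Pool.Agent.H914.VarClass Pool.Agent.H914.VarClass.Obj
  Pool.Agent.H914.WeilCohomology Pool.Agent.H281R3.HT Pool.Agent.TH125.Gal Pool.Agent.V7H5.TI
  Pool.Agent.V7H5.TH
open Pool.Agent.Y133.Half hiding pw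
open Pool.Agent.Y129 (pw TG PowerAction tateClasses)

variable {k : Type u} [Field k] {𝒱 : VarClass k} {ops : CycleOps 𝒱}
  {W W' : WeilCohomology.{u, v} ops} {X Y Z : 𝒱.Obj}

/-- Group-like classes for comultiplications in the system `S`. -/
def GrL (S : Sys W) (Y : 𝒱.Obj) (b : W.H Y) : Prop :=
  b ∈ PH W Y 0 ∧ b ≠ 0 ∧ ∃ c ∈ S.C (Y.prod (Y.prod Y)), W.corr c b = xp W b b

lemma GrL.of_gen {S T : Sys W} {τ : W.H Y} (hY : IsPw X Y) (hτ : τ ∈ T.C Y) (h0 : τ ≠ 0)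
    (h : ∀ Z, IsPw X Z → ∀ t ∈ T.C Z, ∃ x ∈ S.Op Y Z, x τ = t) : GrL S Y τ := by
  obtain ⟨x, hx, hxτ⟩ := h _ (hY.prod hY) (xp W τ τ) (T.mul (T.map _ hτ) (T.map _ hτ))
  obtain ⟨c, hc, rfl⟩ := Sys.mem_Op.1 hx
  exact ⟨T.even hτ, h0, c, hc, hxτ⟩

lemma GrL.mono {S T : Sys W} (hST : ∀ Z, S.C Z ≤ T.C Z) {b : W.H Y} (hb : GrL S Y b) :
    GrL T Y b := by
  obtain ⟨h1, h2, c, hc, h3⟩ := hb
  exact ⟨h1, h2, c, hST _ hc, h3⟩

lemma GrL.cmp (C : Cmpn W W') {S : Sys W} {S' : Sys W'}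
    (hS : ∀ c ∈ S.C (Y.prod (Y.prod Y)), C.φ _ c ∈ S'.C _) {b : W.H Y} (hb : GrL S Y b) :
    GrL S' Y (C.φ Y b) := by
  obtain ⟨h1, h2, c, hc, h3⟩ := hb
  refine ⟨C.even h1, fun h => h2 (C.inj h), _, hS c hc, ?_⟩
  rw [← C.corr, h3, C.xp]

lemma GrL.descend (C : Cmpn W W') (hs : Function.Surjective C.emb) {S : Sys W}
    {S' : Sys W'} (hS : ∀ c ∈ S'.C (Y.prod (Y.prod Y)), ∃ d ∈ S.C _, C.φ _ d = c) {b : W'.H Y}
    (hb : GrL S' Y b) : ∃ d, GrL S Y d ∧ C.φ Y d = b := by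
  obtain ⟨h1, h2, c, hc, h3⟩ := hb
  obtain ⟨d, rfl⟩ := C.surjective hs b
  obtain ⟨c, hc', rfl⟩ := hS c hc
  refine ⟨d, ⟨?_, fun h => h2 (by rw [h, map_zero]), c, hc', ?_⟩, rfl⟩
  · -- the odd part vanishes
    obtain ⟨d₀, hd₀, d₁, hd₁, rfl⟩ := exists_even_odd d
    have h4 : C.φ Y d₁ = 0 := by
      have h5 : C.φ Y d₁ ∈ PH W' Y 0 := by
        have h6 : C.φ Y d₁ = C.φ Y (d₀ + d₁) - C.φ Y d₀ := by rw [map_add]; abel
        rw [h6]
        exact Submodule.sub_mem _ h1 (C.even hd₀)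
      have h7 := PH.par (C.even hd₁)
      rw [PH.par h5, pow_zero, one_smul, pow_one, neg_one_smul] at h7
      have h8 : (2 : W'.K) • C.φ Y d₁ = 0 := by
        rw [two_smul]
        nth_rewrite 1 [h7]
        exact neg_add_cancel _
      exact (smul_eq_zero.1 h8).resolve_left two_ne_zero
    rw [C.inj h4, add_zero]
    exact hd₀
  · apply C.injective
    rw [C.corr, h3, C.xp]

lemma GrL.iso {S : Sys W} (hS : ∀ Z, algSpan W Z ≤ S.C Z) (θ : Y ≅ Z) {b : W.H Y}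
    (hb : GrL S Y b) : GrL S Z (W.map θ.inv b) := by
  obtain ⟨h1, h2, c, hc, h3⟩ := hb
  let θθ : Z.prod Z ⟶ Y.prod Y := lift (fst _ _ ≫ θ.inv) (snd _ _ ≫ θ.inv)
  have hxp : ∀ x y : W.H Y, W.map θθ (xp W x y) = xp W (W.map θ.inv x) (W.map θ.inv y) := by
    intro x y
    rw [xp_def, xp_def, map_mul, ← W.map_comp, ← W.map_comp, ← W.map_comp, ← W.map_comp,
      lift_fst, lift_snd]
  have hback : W.map θ.hom (W.map θ.inv b) = b := by
    rw [← W.map_comp, θ.hom_inv_id, W.map_id]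
  have hΔ' : (W.map θθ).toLinearMap ∘ₗ W.corr c ∘ₗ (W.map θ.hom).toLinearMap ∈
      S.Op Z (Z.prod Z) :=
    Sys.Op.comp (op_mono hS (op_map _)) (Sys.Op.comp (Sys.Op.corr hc) (op_mono hS (op_map _)))
  obtain ⟨d, hd, hde⟩ := Sys.mem_Op.1 hΔ'
  refine ⟨PH.map _ h1, fun h0 => h2 (by rw [← hback, h0, map_zero]), d, hd, ?_⟩
  rw [hde]
  change W.map θθ (W.corr c (W.map θ.hom (W.map θ.inv b))) = _
  rw [hback, h3, hxp]

section Act

variable {Γ : Type w} [Group Γ] {χ : Γ →* W.Kˣ}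
  {ρ : ∀ n, Γ →* (W.H (pw X n) ≃ₐ[W.K] W.H (pw X n))}

/-- Tate classes are fixed by a subgroup of finite index. -/
lemma tw_TG (h : PowerAction W X χ ρ) {n : ℕ} {c : W.H (pw X n)} (hc : c ∈ TG W X χ ρ n) :
    ∃ Δ : Subgroup Γ, Δ.FiniteIndex ∧ ∀ g ∈ Δ, tw χ (ρ n) g c = c := by
  refine Submodule.iSup_induction (fun j => tateClasses χ (W.gr (pw X n)) (ρ n) j)
    (motive := fun c => ∃ Δ : Subgroup Γ, Δ.FiniteIndex ∧ ∀ g ∈ Δ, tw χ (ρ n) g c = c) hc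
    ?_ ?_ ?_
  · rintro j a ⟨ha, Δ, hΔ, h1⟩
    refine ⟨Δ, hΔ, fun g hg => ?_⟩
    rw [tw_gr (h.galois n).gr_mem g ha, h1 g hg, smul_smul,
      Nat.mul_div_cancel_left _ (by norm_num : 0 < 2), ← mul_pow,
      inv_mul_cancel₀ (Units.ne_zero _), one_pow, one_smul]
  · exact ⟨⊤, inferInstance, fun g _ => map_zero _⟩
  · rintro a b ⟨Δ, hΔ, h1⟩ ⟨Δ', hΔ', h2⟩
    refine ⟨Δ ⊓ Δ', inferInstance, fun g hg => ?_⟩
    rw [map_add, h1 g hg.1, h2 g hg.2]

/-- Operators given by Tate classes commute with a subgroup of finite index. -/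
lemma tw_opT (h : PowerAction W X χ ρ) {m n : ℕ} {f : W.H (pw X m) →ₗ[W.K] W.H (pw X n)}
    (hf : f ∈ (extSys (powSys_TG h)).Op (pw X m) (pw X n)) :
    ∃ Δ : Subgroup Γ, Δ.FiniteIndex ∧ ∀ g ∈ Δ, ∀ a ∈ PH W (pw X m) 0,
      tw χ (ρ n) g (f a) = f (tw χ (ρ m) g a) := by
  obtain ⟨c, hc, rfl⟩ := Sys.mem_Op.1 hf
  obtain ⟨e, p, q, ⟨s, hs⟩, ⟨t, ht⟩, hp, hq⟩ := Pool.Agent.Y129.exists_glue X m n
  have hpe := h.equiv p s hs
  have hqe := h.equiv q t ht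
  have key : ∀ a, W.corr c a = W.push q (W.push e c * W.map p a) := by
    intro a
    rw [corr_apply, ← hp, ← hq, W.map_comp, W.push_comp, W.push_mul]
  have hce : W.push e c ∈ TG W X χ ρ (m + n + 1) := by
    have h1 := (extSys (powSys_TG h)).push e hc
    rwa [extSys_pw] at h1
  have hc0 : W.push e c ∈ PH W (pw X (m + n + 1)) 0 := (powSys_TG h).even _ hce
  obtain ⟨Δ, hΔ, hfix⟩ := tw_TG h hce
  refine ⟨Δ, hΔ, fun g hg a ha => ?_⟩
  have ha' : W.map p a ∈ PH W (pw X (m + n + 1)) 0 := PH.map p ha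
  have hm : W.push e c * W.map p a ∈ PH W (pw X (m + n + 1)) 0 := by
    have := PH.mul hc0 ha'
    rwa [zero_add] at this
  have h1 := tw_push h hqe g hm
  have h2 := tw_mul (χ := χ) (h.galois (m + n + 1)).gr_mem g hc0 ha'
  have h3 := tw_map h hpe g a
  have h4 := hfix g hg
  have h5 := key a
  have h6 := key (tw χ (ρ m) g a)
  calc tw χ (ρ n) g (W.corr c a) = tw χ (ρ n) g (W.push q (W.push e c * W.map p a)) := by
        rw [h5]
    _ = W.push q (tw χ (ρ (m + n + 1)) g (W.push e c * W.map p a)) := h1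
    _ = W.push q (W.push e c * W.map p (tw χ (ρ m) g a)) := by rw [h2, h4, h3]
    _ = W.corr c (tw χ (ρ m) g a) := h6.symm

/-- **Group-like classes on the powers, for comultiplications given by Tate classes, are Tate
classes.** -/
theorem GrL.TG_pw (h : PowerAction W X χ ρ) {m : ℕ} {b : W.H (pw X m)}
    (hgl : GrL (extSys (powSys_TG h)) (pw X m) b) : b ∈ Pool.Agent.Y129.TG W X χ ρ m := by
  obtain ⟨hb, hb0, cc, hcc, hΔb⟩ := hgl
  have hΔ : W.corr cc ∈ (extSys (powSys_TG h)).Op (pw X m) ((pw X m).prod (pw X m)) :=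
    Sys.Op.corr hcc
  obtain ⟨e, p, q, ⟨s, hs⟩, ⟨t, ht⟩, hp, hq⟩ := Pool.Agent.Y129.exists_glue X m m
  have hpe := h.equiv p s hs
  have hqe := h.equiv q t ht
  have hel : e ≫ lift p q = 𝟙 _ := by
    apply prod_hom_ext
    · rw [Category.assoc, lift_fst, hp, Category.id_comp]
    · rw [Category.assoc, lift_snd, hq, Category.id_comp]
  have hl : ∀ x y : W.H (pw X m), W.map (lift p q) (xp W x y) = W.map p x * W.map q y := by
    intro x y
    rw [xp_def, map_mul, ← W.map_comp, ← W.map_comp, lift_fst, lift_snd]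
  have hf : (W.map (lift p q)).toLinearMap ∘ₗ W.corr cc ∈
      (extSys (powSys_TG h)).Op (pw X m) (pw X (m + m + 1)) :=
    Sys.Op.comp (op_mono (extSys_alg (powSys_TG h)) (op_map _)) hΔ
  obtain ⟨Γ₀, hΓ₀, hcomm⟩ := tw_opT h hf
  obtain ⟨Γ₁, hΓ₁, hfix⟩ := finiteIndex_of_orbit (fun g x => tw χ (ρ m) g x)
    (tw_one_act (h.galois m).gr_mem) (fun g g' x => tw_mul_act (h.galois m).gr_mem g g' x) hΓ₀
    (x := b) (grouplike_finite (W.corr cc)) (fun g hg => by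
      refine ⟨tw_even (h.galois m).gr_mem g hb, fun h0 => hb0 ?_, ?_⟩
      · have h1 := congrArg (tw χ (ρ m) g⁻¹) h0
        rw [← tw_mul_act (h.galois m).gr_mem, inv_mul_cancel, tw_one_act (h.galois m).gr_mem,
          map_zero] at h1
        exact h1
      · have h1 := hcomm g hg b hb
        change tw χ (ρ (m + m + 1)) g (W.map (lift p q) (W.corr cc b)) =
          W.map (lift p q) (W.corr cc (tw χ (ρ m) g b)) at h1
        rw [hΔb, hl, tw_mul (h.galois _).gr_mem g (PH.map _ hb) (PH.map _ hb),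
          tw_map h hpe, tw_map h hqe, ← hl] at h1
        have h2 := congrArg (W.map e) h1
        rw [← W.map_comp, ← W.map_comp, hel, W.map_id, W.map_id] at h2
        exact h2.symm)
  exact mem_of_fixed (h.galois m).gr_mem hb hΓ₁ hfix

/-- The same for varieties which are isomorphic to powers. -/
theorem GrL.TG (h : PowerAction W X χ ρ) (hY : IsPw X Y) {b : W.H Y}
    (hgl : GrL (extSys (powSys_TG h)) Y b) : b ∈ (extSys (powSys_TG h)).C Y := by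
  obtain ⟨m, ⟨θ⟩⟩ := hY
  have h1 := (hgl.iso (extSys_alg _) θ).TG_pw h
  rw [← extSys_pw (powSys_TG h) m] at h1
  have h2 := (extSys (powSys_TG h)).map θ.hom h1
  rwa [← W.map_comp, θ.hom_inv_id, W.map_id] at h2

end Act

end Pool.Agent.V7H5.TS
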