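import Pool.Agent.V7H5.TH.Mor
import Pool.Agent.Y133.Half.PairGen

/-!
# A single generator over a nondegenerate system
-/

open CategoryTheory AlgebraicGeometry Filter Topology

open scoped ENNReal

universe u v

namespace Pool.Agent.V7H5.TS

open Module
open Pool.Agent.H914 Pool.Agent.H914.VarClass Pool.Agent.H914.VarClass.Obj
  Pool.Agent.H914.WeilCohomology Pool.Agent.H281R3.HT Pool.Agent.V7H5.TI Pool.Agent.V7H5.TH
open Pool.Agent.Y133.Half hiding pw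
open Pool.Agent.Y129 (pw)

variable {k : Type u} [Field k] {𝒱 : VarClass k} {ops : CycleOps 𝒱}
  {W W' : WeilCohomology.{u, v} ops} {X Y Z Q A B : 𝒱.Obj}

/-- Each variety which is isomorphic to a power of `X` has an algebraic class of top degree and
trace one. -/
def Pts (W : WeilCohomology.{u, v} ops) (X : 𝒱.Obj) : Prop :=
  ∀ Z, IsPw X Z → ∃ z ∈ algSpan W Z, z ∈ W.gr Z (2 * Z.dim) ∧ W.tr Z z = 1

lemma op_mono {S T : Sys W} (hST : ∀ Z, S.C Z ≤ T.C Z) {f : W.H Y →ₗ[W.K] W.H Z}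
    (hf : f ∈ S.Op Y Z) : f ∈ T.Op Y Z := by
  obtain ⟨c, hc, rfl⟩ := Sys.mem_Op.1 hf
  exact Sys.Op.corr (hST _ hc)

/-- Two classes are images of one class. -/
lemma combine (hpt : Pts W X) {T : Sys W} (hT : ∀ Z, algSpan W Z ≤ T.C Z) (hdim : 0 < X.dim)
    (hA : IsPw X A) (hB : IsPw X B) {a : W.H A} (ha : a ∈ T.C A) {b : W.H B} (hb : b ∈ T.C B) :
    ∃ τ ∈ T.C (A.prod (B.prod X)), (∃ u ∈ (algSys W).Op (A.prod (B.prod X)) A, u τ = a) ∧
      ∃ w ∈ (algSys W).Op (A.prod (B.prod X)) B, w τ = b := by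
  obtain ⟨z, hz, hzg, hz1⟩ := hpt X (IsPw.self X)
  obtain ⟨q, hq, -, hq1⟩ := hpt A hA
  obtain ⟨p, hp, -, hp1⟩ := hpt B hB
  have hzz : z * z = 0 := by
    have h1 := W.mul_mem hzg hzg
    rw [W.gr_eq_bot X _ (by omega)] at h1
    exact (Submodule.mem_bot _).1 h1
  have htr1 : W.tr X 1 = 0 := W.tr_eq_zero (W.one_mem X) (by omega)
  have hze : z ∈ PH W X 0 := (algSys W).even hz
  have hbe : b ∈ PH W B 0 := T.even hb
  have hpz : xp W p z ∈ algSpan W (B.prod X) := xp_alg hp hz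
  have hpze : xp W p z ∈ PH W (B.prod X) 0 := (algSys W).even hpz
  have hbz : xp W b z ∈ T.C (B.prod X) := T.mul (T.map _ hb) (T.map _ (hT _ hz))
  have hbze : xp W b z ∈ PH W (B.prod X) 0 := T.even hbz
  have h1T : xp W a 1 ∈ T.C (A.prod (B.prod X)) := T.mul (T.map _ ha) (T.map _ (T.one _))
  have h2T : xp W 1 (xp W b z) ∈ T.C (A.prod (B.prod X)) :=
    T.mul (T.map _ (T.one _)) (T.map _ hbz)
  have e3 : xp W p z * xp W b z = 0 := by
    rw [xp_mul p b z z hze hbe, hzz, xp_zero_right, smul_zero]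
  have e4 : W.tr (B.prod X) (xp W p z * 1) = 1 := by
    rw [mul_one, tr_xp, hp1, hz1, one_mul]
  have e5 : exL W (A := B) (1 : W.H X) (1 : W.H (B.prod X)) = 0 := by
    rw [← xp_one B X, exL_xp one_even 1 one_even, mul_one, htr1, zero_smul]
  have e6 : exL W (A := B) (1 : W.H X) (xp W b z) = b := by
    rw [exL_xp one_even b hze, one_mul, hz1, one_smul]
  refine ⟨xp W a 1 + xp W 1 (xp W b z), Submodule.add_mem _ h1T h2T,
    ⟨exL W (xp W p z), op_exL hpz, ?_⟩,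
    ⟨exL W (A := B) (1 : W.H X) ∘ₗ conL W q, Sys.Op.comp (op_exL ((algSys W).one X))
      (op_conL hq), ?_⟩⟩
  · rw [map_add, exL_xp hpze a one_even, exL_xp hpze 1 hbze, e3, map_zero, zero_smul, add_zero,
      e4, one_smul]
  · rw [LinearMap.comp_apply, map_add, conL_xp, conL_xp, mul_one, hq1, one_smul, map_add,
      map_smul, e5, smul_zero, zero_add, e6]

/-- Finitely many classes are images of one class. -/
lemma exists_common (hpt : Pts W X) {T : Sys W} (hT : ∀ Z, algSpan W Z ≤ T.C Z) (r : ℕ)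
    (c : Fin r → Σ A : 𝒱.Obj, W.H A) (hA : ∀ i, IsPw X (c i).1)
    (hc : ∀ i, (c i).2 ∈ T.C (c i).1) :
    ∃ Y, IsPw X Y ∧ ∃ τ ∈ T.C Y, (∃ u ∈ (algSys W).Op Y X, u τ = 1) ∧
      ∀ i, ∃ u ∈ (algSys W).Op Y (c i).1, u τ = (c i).2 := by
  rcases Nat.eq_zero_or_pos X.dim with hdim | hdim
  · refine ⟨X, IsPw.self X, 1, T.one X, ⟨LinearMap.id, Sys.Op.id, rfl⟩, fun i => ?_⟩
    obtain ⟨n, ⟨θ⟩⟩ := hA i
    obtain ⟨s, hs⟩ := eq_smul_one (W := W) (Z := pw X n) (by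
      rw [Pool.Agent.Y129.dim_pw, hdim, mul_zero]) (W.map θ.inv (c i).2)
    refine ⟨s • ((W.map θ.hom).toLinearMap ∘ₗ (W.map (Pool.Agent.Y129.pj X n 0)).toLinearMap),
      Submodule.smul_mem _ _ (Sys.Op.comp (op_map _) (op_map _)), ?_⟩
    rw [LinearMap.smul_apply, LinearMap.comp_apply]
    have h1 : W.map θ.hom (W.map θ.inv (c i).2) = (c i).2 := by
      rw [← W.map_comp, θ.hom_inv_id, W.map_id]
    have h2 : W.map θ.hom (W.map (Pool.Agent.Y129.pj X n 0) 1) = 1 := by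
      rw [map_one, map_one]
    have h3 : (W.map θ.hom).toLinearMap ((W.map (Pool.Agent.Y129.pj X n 0)).toLinearMap
        (1 : W.H X)) = 1 := h2
    rw [h3, ← h1, hs, map_smul, map_one]
  · induction r with
    | zero =>
      exact ⟨X, IsPw.self X, 1, T.one X, ⟨LinearMap.id, Sys.Op.id, rfl⟩, fun i => i.elim0⟩
    | succ r ih =>
      obtain ⟨Y, hY, τ, hτ, ⟨u₀, hu₀, hu₀'⟩, h⟩ := ih (fun i => c i.castSucc)
        (fun i => hA _) (fun i => hc _)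
      obtain ⟨τ', hτ', ⟨u, hu, hu'⟩, ⟨w, hw, hw'⟩⟩ := combine hpt hT hdim hY
        (hA (Fin.last r)) hτ (hc (Fin.last r))
      refine ⟨_, hY.prod ((hA (Fin.last r)).prod (IsPw.self X)), τ', hτ',
        ⟨u₀ ∘ₗ u, Sys.Op.comp hu₀ hu, by rw [LinearMap.comp_apply, hu', hu₀']⟩, fun i => ?_⟩
      refine Fin.lastCases ?_ (fun i => ?_) i
      · exact ⟨w, hw, hw'⟩
      · obtain ⟨u₁, hu₁, hu₁'⟩ := h i
        exact ⟨u₁ ∘ₗ u, Sys.Op.comp hu₁ hu, by rw [LinearMap.comp_apply, hu', hu₁']⟩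

lemma isPw_half (X : 𝒱.Obj) (n : ℕ) : IsPw X (Pool.Agent.Y133.Half.pw X n) :=
  ⟨n, ⟨(pwIso129 X n).symm⟩⟩

/-- **A single generator.** -/
theorem exists_cyclic (hpt : Pts W X) {S T : Sys W} (hS : ∀ Z, algSpan W Z ≤ S.C Z)
    (hST : ∀ Z, S.C Z ≤ T.C Z) (r : ℕ) (c : Fin r → Σ m, W.H (Pool.Agent.Y133.Half.pw X m))
    (hc : ∀ i, (c i).2 ∈ T.C (Pool.Agent.Y133.Half.pw X (c i).1))
    (hgen : ∀ n, T.C (Pool.Agent.Y133.Half.pw X n) ≤ S.genS X c n) :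
    ∃ Y, IsPw X Y ∧ ∃ τ ∈ T.C Y, τ ≠ 0 ∧
      ∀ Z, IsPw X Z → ∀ t ∈ T.C Z, ∃ x ∈ S.Op Y Z, x τ = t := by
  obtain ⟨Y, hY, τ, hτ, ⟨u₀, hu₀, hu₀'⟩, h⟩ := exists_common hpt
    (fun Z => (hS Z).trans (hST Z)) r (fun i => ⟨Pool.Agent.Y133.Half.pw X (c i).1, (c i).2⟩)
    (fun i => isPw_half X _) hc
  obtain ⟨z, hz, -, hz1⟩ := hpt X (IsPw.self X)
  refine ⟨Y, hY, τ, hτ, fun h0 => ?_, ?_⟩
  · rw [h0, map_zero] at hu₀'
    rw [← mul_one z, ← hu₀', mul_zero, map_zero] at hz1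
    exact zero_ne_one hz1
  have key : ∀ n, ∀ t ∈ T.C (Pool.Agent.Y133.Half.pw X n),
      ∃ x ∈ S.Op Y (Pool.Agent.Y133.Half.pw X n), x τ = t := by
    intro n t ht
    set M : Submodule W.K (W.H (Pool.Agent.Y133.Half.pw X n)) :=
      (S.Op Y (Pool.Agent.Y133.Half.pw X n)).map (LinearMap.applyₗ τ) with hM
    have hmem : ∀ t, t ∈ M ↔ ∃ x ∈ S.Op Y (Pool.Agent.Y133.Half.pw X n), x τ = t := fun t =>
      Submodule.mem_map
    rw [← hmem]
    refine (le_trans (hgen n) ?_) ht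
    refine sup_le ?_ (iSup_le fun i => ?_)
    · intro a ha
      rw [hmem]
      have hza : xp W z a ∈ S.C (X.prod (Pool.Agent.Y133.Half.pw X n)) :=
        S.mul (S.map _ (hS _ hz)) (S.map _ ha)
      refine ⟨W.corr (xp W z a) ∘ₗ u₀, Sys.Op.comp (Sys.Op.corr hza) (op_mono hS hu₀), ?_⟩
      rw [LinearMap.comp_apply, hu₀', corr_xp0 z (S.even ha), mul_one, hz1, one_smul]
    · rintro _ ⟨f, hf, rfl⟩
      obtain ⟨u, hu, hu'⟩ := h i
      refine (hmem _).2 ⟨f ∘ₗ u, Sys.Op.comp hf (op_mono hS hu), ?_⟩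
      rw [LinearMap.comp_apply, hu']
      rfl
  rintro Z ⟨n, ⟨θ⟩⟩ t ht
  set θ' : Z ≅ Pool.Agent.Y133.Half.pw X n := θ ≪≫ pwIso129 X n with hθ'
  obtain ⟨x, hx, hxt⟩ := key n (W.map θ'.inv t) (T.map _ ht)
  refine ⟨(W.map θ'.hom).toLinearMap ∘ₗ x, Sys.Op.comp (op_mono hS (op_map _)) hx, ?_⟩
  rw [LinearMap.comp_apply, hxt]
  change W.map θ'.hom (W.map θ'.inv t) = t
  rw [← W.map_comp, θ'.hom_inv_id, W.map_id]

/-- Transfer of nondegeneracy to isomorphic varieties. -/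
lemma nondeg_iso {S : Sys W} (θ : Y ≅ Z) (h : Sys.Nondeg S Y) : Sys.Nondeg S Z := by
  intro x hx hxy
  have h1 : W.map θ.hom x = 0 := by
    refine h _ (S.map _ hx) fun y hy => ?_
    have h2 := hxy (W.push θ.hom y) (S.push _ hy)
    have hev : W.push θ.hom y ∈ PH W Z 0 := S.even (S.push _ hy)
    rw [← PH.even_comm hev, W.tr_push, PH.even_comm (S.even hy)] at h2
    exact h2
  have h3 : W.map θ.inv (W.map θ.hom x) = x := by
    rw [← W.map_comp, θ.inv_hom_id, W.map_id]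
  rw [← h3, h1, map_zero]

/-- **A single generator** for systems of finite index over a nondegenerate system. -/
theorem exists_cyclic_of_index [Nontrivial (W.H X)] (hpt : Pts W X) {S T : Sys W}
    (hS : ∀ Z, algSpan W Z ≤ S.C Z) (hST : ∀ Z, S.C Z ≤ T.C Z)
    (hnd : ∀ n, Sys.Nondeg S (pw X n))
    (hfin : ¬ Tendsto (fun n => (finrank W.K (T.C (pw X n)) : ℝ≥0∞) /
      finrank W.K (S.C (pw X n))) atTop (𝓝 ⊤)) :
    ∃ Y, IsPw X Y ∧ ∃ τ ∈ T.C Y, τ ≠ 0 ∧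
      ∀ Z, IsPw X Z → ∀ t ∈ T.C Z, ∃ x ∈ S.Op Y Z, x τ = t := by
  have hnd' : ∀ n, Sys.Nondeg S (Pool.Agent.Y133.Half.pw X n) := fun n =>
    nondeg_iso (pwIso129 X n) (hnd n)
  have hstab := Sys.stab_of_le hST (X := X)
  obtain ⟨N, h1, h2, -, -⟩ := Sys.stab_index hnd' hstab fun n => hST _
  have e1 : ∀ n, finrank W.K (T.C (pw X n)) =
      finrank W.K (T.C (Pool.Agent.Y133.Half.pw X n)) := fun n => T.finrank_C_iso (pwIso129 X n)
  have e2 : ∀ n, finrank W.K (S.C (pw X n)) =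
      finrank W.K (S.C (Pool.Agent.Y133.Half.pw X n)) := fun n => S.finrank_C_iso (pwIso129 X n)
  have hN : N ≠ ⊤ := by
    rintro rfl
    apply hfin
    simp only [e1, e2]
    exact h2
  obtain ⟨r, c, -, hc, hgen⟩ := Sys.ind_generators hnd' hstab (fun n => hST _) h2 hN
    (fun n => (T.C (Pool.Agent.Y133.Half.pw X n) : Set (W.H (Pool.Agent.Y133.Half.pw X n))))
    (fun n => (Submodule.span_eq _).symm)
  exact exists_cyclic hpt hS hST r c hc fun n => (hgen n).le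

end Pool.Agent.V7H5.TS
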