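import Pool.Agent.V7H5.TS.Unit

/-!
# The zero-one law for Hodge classes and Tate classes
-/

open CategoryTheory AlgebraicGeometry TensorProduct Filter Topology

open scoped ENNReal

universe u v w

namespace Pool.Agent.V7H5.TS

open Module
open Pool.Agent.H914 Pool.Agent.H914.VarClass Pool.Agent.H914.VarClass.Obj
  Pool.Agent.H914.WeilCohomology Pool.Agent.H281R3.HT Pool.Agent.TH125.Gal
open Pool.Agent.V7H5.TI hiding IsTate DensityZero
open Pool.Agent.V7H5.TH hiding HodgeInTate TateInHodge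
open Pool.Agent.Y133.Half hiding pw cycRank IsHodge hodgeDim HodgeIn algDim tateDim
open Pool.Agent.Y129 (pw TG PowerAction tateClasses)
open Pool.Agent.Y133.Hdg (HodgeStr IsHodge)

variable {k : Type u} [Field k] {𝒱 : VarClass k} {ops : CycleOps 𝒱}
  {W W' : WeilCohomology.{u, v} ops} {X Y Z : 𝒱.Obj}

section Hodge

variable [Algebra W.K ℝ] (Ψ : HodgeSystem W)

/-- Hodge classes are Tate classes for the action of the nonzero complex numbers. -/
lemma hodge_TG {N : Type v} [Field N] [Algebra W.K N] (g : ℝ →ₐ[W.K] N) {n : ℕ}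
    {c : W.H (pw X n)} (hc : c ∈ (hodgeSys Ψ).C (pw X n)) (l : N) :
    (l ⊗ₜ[W.K] c : N ⊗[W.K] W.H (pw X n)) ∈ TG (baseW W N) X (chiH g) (rhoH Ψ g X) n := by
  refine hodgeSpan.ind (Ψ := Ψ) (q := fun c => (l ⊗ₜ[W.K] c : N ⊗[W.K] W.H (pw X n)) ∈
    TG (baseW W N) X (chiH g) (rhoH Ψ g X) n) ?_ ?_ ?_ hc
  · intro j x hx
    have h1 : ∀ t, extE g (Ψ.h (pw X n) t) (l ⊗ₜ[W.K] x) =
        ((chiE g t : Nˣ) : N) ^ j • (l ⊗ₜ[W.K] x) := by
      intro t
      rw [extE_tmul, hx.2 t, gm_smul, gm_tmul, map_one, chiE_pow, smul_comm l,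
        TensorProduct.smul_tmul' l, smul_eq_mul, mul_one]
    obtain ⟨y, hy⟩ : ∃ y : (baseW W N).H (pw X n), y = (l ⊗ₜ[W.K] x : N ⊗[W.K] W.H (pw X n)) :=
      ⟨_, rfl⟩
    have h2 : y ∈ TG (baseW W N) X (chiH g) (rhoH Ψ g X) n := by
      refine Submodule.mem_iSup_of_mem j ⟨?_, ⊤, inferInstance, fun t _ => ?_⟩
      · rw [hy]
        exact Submodule.tmul_mem_baseChange_of_mem _ hx.1
      · rw [hy]
        exact h1 t
    rw [hy] at h2
    exact h2
  · have h1 : (l ⊗ₜ[W.K] (0 : W.H (pw X n)) : N ⊗[W.K] W.H (pw X n)) = 0 :=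
      TensorProduct.tmul_zero _ _
    exact h1 ▸ Submodule.zero_mem (TG (baseW W N) X (chiH g) (rhoH Ψ g X) n)
  · intro x y hx hy
    have h1 : (l ⊗ₜ[W.K] (x + y) : N ⊗[W.K] W.H (pw X n)) = l ⊗ₜ[W.K] x + l ⊗ₜ[W.K] y :=
      TensorProduct.tmul_add _ _ _
    exact h1 ▸ Submodule.add_mem (TG (baseW W N) X (chiH g) (rhoH Ψ g X) n) hx hy

/-- Combinations of Hodge classes are Tate classes. -/
lemma hcmp {F : Type v} [Field F] [Algebra W.K F] {N : Type v} [Field N] [Algebra W.K N]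
    (f : F →ₐ[W.K] N) (g : ℝ →ₐ[W.K] N) (hPA : PowerAction (baseW W N) X (chiH g) (rhoH Ψ g X))
    (hZ : IsPw X Z) {c : F ⊗[W.K] W.H Z} (hc : c ∈ ((hodgeSys Ψ).C Z).baseChange F) :
    (baseCmp W f).φ Z c ∈ (extSys (powSys_TG hPA)).C Z := by
  obtain ⟨m, ⟨θ⟩⟩ := hZ
  have h5 : (baseW W N).map θ.inv ((baseCmp W f).φ Z c) ∈
      TG (baseW W N) X (chiH g) (rhoH Ψ g X) m := by
    refine base_induction (P := fun c : F ⊗[W.K] W.H Z =>
      (baseW W N).map θ.inv ((baseCmp W f).φ Z c) ∈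
        TG (baseW W N) X (chiH g) (rhoH Ψ g X) m) ?_ ?_ ?_ hc
    · have h6 : (baseCmp W f).φ Z (0 : (baseW W F).H Z) = 0 := map_zero _
      have h7 : (baseW W N).map θ.inv ((baseCmp W f).φ Z (0 : (baseW W F).H Z)) = 0 := by
        rw [h6, map_zero]
      exact h7 ▸ Submodule.zero_mem (TG (baseW W N) X (chiH g) (rhoH Ψ g X) m)
    · have h7 : ∀ x y : (baseW W F).H Z, (baseW W N).map θ.inv ((baseCmp W f).φ Z x) ∈
          TG (baseW W N) X (chiH g) (rhoH Ψ g X) m → (baseW W N).map θ.inv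
          ((baseCmp W f).φ Z y) ∈ TG (baseW W N) X (chiH g) (rhoH Ψ g X) m →
          (baseW W N).map θ.inv ((baseCmp W f).φ Z (x + y)) ∈
          TG (baseW W N) X (chiH g) (rhoH Ψ g X) m := by
        intro x y hx hy
        rw [map_add, map_add]
        exact Submodule.add_mem _ hx hy
      exact fun x y hx hy => h7 x y hx hy
    · intro l a ha
      have h6 : mapBase N (W.map θ.inv) (fm f (W.H Z) (l ⊗ₜ[W.K] a)) =
          (f l) ⊗ₜ[W.K] (W.map θ.inv a) := by
        rw [fm_tmul]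
        exact Algebra.TensorProduct.map_tmul _ _ _ _
      have h7 := hodge_TG Ψ g ((hodgeSys Ψ).map θ.inv ha) (f l)
      rw [← h6] at h7
      exact h7
  rw [← extSys_pw (powSys_TG hPA)] at h5
  have h6 := (extSys (powSys_TG hPA)).map θ.hom h5
  rwa [← (baseW W N).map_comp, θ.hom_inv_id, (baseW W N).map_id] at h6

/-- **Group-like classes for comultiplications given by combinations of Hodge classes are
combinations of Hodge classes.** -/
theorem GrL.hodge_pw {F : Type v} [Field F] [Algebra W.K F] {S : Sys (baseW W F)}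
    (hS : ∀ Z, ∀ c ∈ S.C Z, (c : F ⊗[W.K] W.H Z) ∈ ((hodgeSys Ψ).C Z).baseChange F) {n : ℕ}
    {b : (baseW W F).H (pw X n)} (hb : GrL S (pw X n) b) :
    b ∈ ((hodgeSys Ψ).C (pw X n)).baseChange F := by
  have hN : ∀ i, 2 * (pw X n).dim + 1 ≤ i → (baseW W F).gr (pw X n) i = ⊥ :=
    fun i hi => (baseW W F).gr_eq_bot (pw X n) i (by omega)
  have h1 := LinearMap.congr_fun (sum_proj ((baseW W F).isInternal (pw X n)) hN) b
  rw [LinearMap.sum_apply, Module.End.one_apply] at h1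
  rw [← h1]
  refine Submodule.sum_mem _ fun i _ => ?_
  rcases Nat.even_or_odd i with ⟨j, hj⟩ | ⟨j, hj⟩
  swap
  · have h2 : proj ((baseW W F).isInternal (pw X n)) i b = 0 := by
      refine PH.ind (p := fun c => proj ((baseW W F).isInternal (pw X n)) i c = 0) ?_ ?_ ?_ hb.1
      · intro l hl x hx
        exact proj_ne _ hx (by omega)
      · rw [map_zero]
      · intro x y hx hy
        rw [map_add, hx, hy, add_zero]
    rw [h2]
    exact Submodule.zero_mem _
  · obtain rfl : i = 2 * j := by omega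
    set bj : F ⊗[W.K] W.H (pw X n) := proj ((baseW W F).isInternal (pw X n)) (2 * j) b with hbj
    have hgr : bj ∈ (W.gr (pw X n) (2 * j)).baseChange F :=
      proj_mem ((baseW W F).isInternal (pw X n)) (2 * j) b
    change bj ∈ ((hodgeSys Ψ).C (pw X n)).baseChange F
    apply mem_baseChange_of_co
    intro ι
    refine hodgeSpan.of (j := j) ⟨co_mem hgr ι, fun t => ?_⟩
    -- the linear condition
    let D : W.H (pw X n) →ₗ[W.K] ℝ ⊗[W.K] W.H (pw X n) :=
      (((Ψ.h (pw X n) t).restrictScalars W.K).comp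
        (Algebra.TensorProduct.includeRight : W.H (pw X n) →ₐ[W.K] ℝ ⊗[W.K] W.H (pw X n))
        ).toLinearMap - TensorProduct.mk W.K ℝ (W.H (pw X n)) (‖(t : ℂ)‖ ^ (2 * j))
    have hD : ∀ a, D a = Ψ.h (pw X n) t ((1 : ℝ) ⊗ₜ[W.K] a) -
        (‖(t : ℂ)‖ ^ (2 * j)) • ((1 : ℝ) ⊗ₜ[W.K] a) := by
      intro a
      rw [TensorProduct.smul_tmul', smul_eq_mul, mul_one]
      rfl
    have h3 := coord_of_pairs D (b := bj) (fun N _ _ g => (extE g (Ψ.h (pw X n) t)).toLinearMap -
      g (‖(t : ℂ)‖ ^ (2 * j)) • LinearMap.id) ?_ ?_ ι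
    · rw [hD] at h3
      exact sub_eq_zero.1 h3
    · intro N _ _ g a
      rw [LinearMap.sub_apply, AlgHom.toLinearMap_apply, extE_tmul, one_smul,
        LinearMap.smul_apply, LinearMap.id_apply, hD, map_sub, gm_smul, gm_tmul, map_one]
    · intro N _ _ f g
      have hPA := powerAction_hodge Ψ g X
      have h4 : GrL (extSys (powSys_TG hPA)) (pw X n) ((baseCmp W f).φ _ b) := by
        refine hb.cmp (baseCmp W f) fun c hc => ?_
        -- the comultiplication is given by a Hodge class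
        exact hcmp Ψ f g hPA ((IsPw.of X n).prod ((IsPw.of X n).prod (IsPw.of X n))) (hS _ c hc)
      have h5 := TG_proj (h4.TG_pw hPA) j
      rw [← (baseCmp W f).proj] at h5
      have h6 := tate_hodge Ψ g h5 t
      rw [LinearMap.sub_apply, LinearMap.smul_apply, LinearMap.id_apply, sub_eq_zero]
      exact h6

end Hodge

end Pool.Agent.V7H5.TS
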