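import Pool.Agent.V7H5.TS.Hpw

/-!
# The zero-one law for Hodge classes and Tate classes
-/

open CategoryTheory AlgebraicGeometry TensorProduct Filter Topology

open scoped ENNReal

universe u v w

namespace Pool.Agent.V7H5.TS

open Module
open Pool.Agent.H914 Pool.Agent.H914.VarClass Pool.Agent.H914.VarClass.Obj
  Pool.Agent.H914.WeilCohomology Pool.Agent.H281R3.HT Pool.Agent.TH125.Gal
open Pool.Agent.V7H5.TI hiding IsTate DensityZero
open Pool.Agent.V7H5.TH hiding HodgeInTate TateInHodge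
open Pool.Agent.Y133.Half hiding pw cycRank IsHodge hodgeDim HodgeIn algDim tateDim
open Pool.Agent.Y129 (pw TG PowerAction tateClasses)
open Pool.Agent.Y133.Hdg (HodgeStr IsHodge)

variable {k : Type u} [Field k] {𝒱 : VarClass k} {ops : CycleOps 𝒱}
  {W W' : WeilCohomology.{u, v} ops} {X Y Z : 𝒱.Obj}

/-- The classes of the pushed system come from the extension of the coefficients. -/
lemma cmp_descend (C : Cmpn W W') [Algebra W.K W'.K]
    (he : ∀ r, C.emb r = algebraMap W.K W'.K r) (S : Sys W) (Z : 𝒱.Obj) {c : W'.H Z}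
    (hc : c ∈ (pushSys C S).C Z) :
    ∃ d ∈ (pushSys (unitCmp W W'.K) S).C Z, (extCmp C he).φ Z d = c := by
  have key : ∀ c ∈ Submodule.span W'.K (C.φ Z '' (S.C Z)),
      ∃ d : W'.K ⊗[W.K] W.H Z, d ∈ (S.C Z).baseChange W'.K ∧ extP C he Z d = c := by
    intro c hc
    induction hc using Submodule.span_induction with
    | mem x hx =>
      obtain ⟨a, ha, rfl⟩ := hx
      exact ⟨(1 : W'.K) ⊗ₜ[W.K] a, Submodule.tmul_mem_baseChange_of_mem _ ha, by
        rw [extP_tmul, one_smul]⟩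
    | zero => exact ⟨0, Submodule.zero_mem _, map_zero _⟩
    | add x y _ _ hx hy =>
      obtain ⟨x', hx', rfl⟩ := hx
      obtain ⟨y', hy', rfl⟩ := hy
      exact ⟨x' + y', Submodule.add_mem _ hx' hy', map_add _ _ _⟩
    | smul r x _ hx =>
      obtain ⟨x', hx', rfl⟩ := hx
      exact ⟨r • x', Submodule.smul_mem _ _ hx', extP_smul C he r x'⟩
  obtain ⟨d, hd, hdc⟩ := key c hc
  refine ⟨d, ?_, hdc⟩
  refine base_induction (P := fun x : W'.K ⊗[W.K] W.H Z =>
    x ∈ (pushSys (unitCmp W W'.K) S).C Z) ?_ ?_ ?_ hd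
  · exact Submodule.zero_mem _
  · exact fun x y hx hy => Submodule.add_mem _ hx hy
  · intro l a ha
    have h1 : (l ⊗ₜ[W.K] a : W'.K ⊗[W.K] W.H Z) = l • ((1 : W'.K) ⊗ₜ[W.K] a) := by
      rw [TensorProduct.smul_tmul', smul_eq_mul, mul_one]
    rw [h1]
    exact Submodule.smul_mem _ _ (pushSys_mem (unitCmp W W'.K) ha)

section Hodge

variable [Algebra W.K ℝ] (Ψ : HodgeSystem W)

variable (C : Cmpn W W') {Γ : Type w} [Group Γ] {χ : Γ →* W'.Kˣ}
  {ρ : ∀ n, Γ →* (W'.H (pw X n) ≃ₐ[W'.K] W'.H (pw X n))}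

/-- The system of the classes which are Hodge classes and Tate classes. -/
noncomputable abbrev HT (h : PowerAction W' X χ ρ) : Sys W :=
  htSys C (hodgeSys Ψ) (extSys (powSys_TG h))

lemma HT_alg (h : PowerAction W' X χ ρ) (Z : 𝒱.Obj) : algSpan W Z ≤ (HT Ψ C h).C Z :=
  ht_alg (alg_le_hodge Ψ) (extSys_alg _) Z

lemma HT_le (h : PowerAction W' X χ ρ) (Z : 𝒱.Obj) : (HT Ψ C h).C Z ≤ (hodgeSys Ψ).C Z :=
  fun _ ha => ha.1

lemma push_HT_le (h : PowerAction W' X χ ρ) (Z : 𝒱.Obj) :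
    (pushSys C (HT Ψ C h)).C Z ≤ (extSys (powSys_TG h)).C Z := by
  refine Submodule.span_le.2 ?_
  rintro _ ⟨a, ha, rfl⟩
  exact ha.2

/-- **Hodge classes are Tate classes, or those which are form a set of density zero.** -/
theorem hodge_or (h : PowerAction W' X χ ρ) [Nontrivial (W.H X)]
    (hfin : ¬ Tendsto (fun n => (finrank W.K ((hodgeSys Ψ).C (pw X n)) : ℝ≥0∞) /
      finrank W.K ((HT Ψ C h).C (pw X n))) atTop (𝓝 ⊤)) (hZ : IsPw X Z) {a : W.H Z}
    (ha : a ∈ (hodgeSys Ψ).C Z) : C.φ Z a ∈ (extSys (powSys_TG h)).C Z := by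
  obtain ⟨Y, hY, τ, hτ, hτ0, hgen⟩ := exists_cyclic_of_index (pts_hodge Ψ) (HT_alg Ψ C h)
    (HT_le Ψ C h) (ht_nondeg Ψ C h) hfin
  have h1 : GrL (HT Ψ C h) Y τ := GrL.of_gen hY hτ hτ0 hgen
  have h2 : GrL (extSys (powSys_TG h)) Y (C.φ Y τ) := h1.cmp C fun c hc => (mem_ht.1 hc).2
  have h3 := h2.TG h hY
  obtain ⟨x, hx, rfl⟩ := hgen Z hZ a ha
  obtain ⟨d, hd, rfl⟩ := Sys.mem_Op.1 hx
  rw [C.corr]
  exact Sys.Op.apply (fun _ => le_rfl) (Sys.Op.corr (mem_ht.1 hd).2) h3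

/-- **Tate classes are combinations of Hodge classes, or the Hodge classes which are Tate classes
have density zero among them.** -/
theorem tate_or (h : PowerAction W' X χ ρ) [Nontrivial (W.H X)]
    (hfin : ¬ Tendsto (fun n => (finrank W'.K ((extSys (powSys_TG h)).C (pw X n)) : ℝ≥0∞) /
      finrank W.K ((HT Ψ C h).C (pw X n))) atTop (𝓝 ⊤)) (hZ : IsPw X Z) {t : W'.H Z}
    (ht : t ∈ (extSys (powSys_TG h)).C Z) : t ∈ (pushSys C (hodgeSys Ψ)).C Z := by
  have hnt : Nontrivial (W'.H X) := nontrivial_cmp C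
  let _ : Algebra W.K W'.K := C.emb.toAlgebra
  have he : ∀ r, C.emb r = algebraMap W.K W'.K r := fun r => rfl
  have hSa := pushSys_alg C (HT_alg Ψ C h)
  obtain ⟨Y, hY, τ, hτ, hτ0, hgen⟩ := exists_cyclic_of_index
    (Pts.cmp C (pts_hodge Ψ)) hSa (push_HT_le Ψ C h)
    (fun n => push_nondeg C (ht_nondeg Ψ C h n)) (by
      simp only [push_finrank]
      exact hfin)
  have h1 : GrL (pushSys C (HT Ψ C h)) Y τ := GrL.of_gen hY hτ hτ0 hgen
  obtain ⟨m, ⟨θ⟩⟩ := hY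
  have h2 := h1.iso hSa θ
  obtain ⟨b, hb, hbτ⟩ := h2.descend (extCmp C he) Function.surjective_id
    (S := pushSys (unitCmp W W'.K) (HT Ψ C h)) (fun c hc => cmp_descend C he _ _ hc)
  have hb1 := hb.hodge_pw (X := X) Ψ fun Z c hc =>
    Submodule.baseChange_mono _ (HT_le Ψ C h Z) (push_unit _ _ hc)
  have hb2 : W'.map θ.inv τ ∈ (pushSys C (hodgeSys Ψ)).C (pw X m) := by
    rw [← hbτ]
    refine base_induction (P := fun x : W'.K ⊗[W.K] W.H (pw X m) => extP C he (pw X m) x ∈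
      (pushSys C (hodgeSys Ψ)).C (pw X m)) ?_ ?_ ?_ hb1
    · rw [map_zero]; exact Submodule.zero_mem _
    · intro x y hx hy
      rw [map_add]; exact Submodule.add_mem _ hx hy
    · intro l a ha
      rw [extP_tmul]
      exact Submodule.smul_mem _ _ (pushSys_mem C ha)
  have hτ2 : τ ∈ (pushSys C (hodgeSys Ψ)).C Y := by
    have h3 := (pushSys C (hodgeSys Ψ)).map θ.hom hb2
    rwa [← W'.map_comp, θ.hom_inv_id, W'.map_id] at h3
  obtain ⟨x, hx, rfl⟩ := hgen Z hZ t ht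
  have hle : ∀ Z, (pushSys C (HT Ψ C h)).C Z ≤ (pushSys C (hodgeSys Ψ)).C Z := fun Z =>
    Submodule.span_mono (Set.image_mono (HT_le Ψ C h Z))
  exact Sys.Op.apply hle hx hτ2

end Hodge

end Pool.Agent.V7H5.TS
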