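import Pool.Agent.V7H5.TS.Gal
import Pool.Agent.Y133.Half.HRPred

/-!
# The classes which are Hodge classes and Tate classes form a nondegenerate system
-/

open CategoryTheory AlgebraicGeometry TensorProduct

universe u v w

namespace Pool.Agent.V7H5.TS

open Module
open Pool.Agent.H914 Pool.Agent.H914.VarClass Pool.Agent.H914.VarClass.Obj
  Pool.Agent.H914.WeilCohomology Pool.Agent.H281R3.HT Pool.Agent.TH125.Gal Pool.Agent.V7H5.TI
  Pool.Agent.V7H5.TH
open Pool.Agent.Y133.Half hiding pw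
open Pool.Agent.Y129 (pw TG PowerAction tateClasses)

section Alg

variable {K : Type*} [Field K] {A : Type*} [Ring A] [Algebra K A] {F : Type*} [Field F]
  [Algebra K F]

lemma co_mul (u : A) (x : F ⊗[K] A) (ι : Basis.ofVectorSpaceIndex K F) :
    co F (((1 : F) ⊗ₜ[K] u) * x) ι = u * co F x ι := by
  refine tmul_induction (P := fun x => co F (((1 : F) ⊗ₜ[K] u) * x) ι = u * co F x ι) ?_ ?_ ?_ x
  · rw [mul_zero, map_zero, Finsupp.zero_apply, mul_zero]
  · intro x y hx hy
    rw [mul_add, map_add, map_add, Finsupp.add_apply, Finsupp.add_apply, hx, hy, mul_add]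
  · intro l a
    rw [Algebra.TensorProduct.tmul_mul_tmul, one_mul, co_tmul, co_tmul, mul_smul_comm]

lemma co_tr (tr : A →ₗ[K] K) (x : F ⊗[K] A) (s : A) (ι : Basis.ofVectorSpaceIndex K F) :
    (Basis.ofVectorSpace K F).repr (formBase F tr (x * ((1 : F) ⊗ₜ[K] s))) ι =
      tr (co F x ι * s) := by
  refine tmul_induction (P := fun x => (Basis.ofVectorSpace K F).repr
    (formBase F tr (x * ((1 : F) ⊗ₜ[K] s))) ι = tr (co F x ι * s)) ?_ ?_ ?_ x
  · rw [zero_mul, map_zero, map_zero, Finsupp.zero_apply, map_zero, Finsupp.zero_apply, zero_mul,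
      map_zero]
  · intro x y hx hy
    rw [add_mul, map_add, map_add, Finsupp.add_apply, hx, hy, map_add, Finsupp.add_apply,
      add_mul, map_add]
  · intro l a
    rw [Algebra.TensorProduct.tmul_mul_tmul, mul_one, formBase_tmul, co_tmul, smul_mul_assoc,
      map_smul, mul_comm l, ← Algebra.smul_def, map_smul, Finsupp.smul_apply, smul_eq_mul,
      smul_eq_mul, mul_comm]

lemma eq_zero_of_co {x : F ⊗[K] A} (h : ∀ ι, co F x ι = 0) : x = 0 := by
  have h1 : co F x = 0 := Finsupp.ext h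
  exact (LinearEquiv.map_eq_zero_iff _).1 h1

end Alg

variable {k : Type u} [Field k] {𝒱 : VarClass k} {ops : CycleOps 𝒱}
  {W W' : WeilCohomology.{u, v} ops} {X Y Z : 𝒱.Obj}

/-- The classes of `S` whose images belong to `T`. -/
def htSys (C : Cmpn W W') (S : Sys W) (T : Sys W') : Sys W where
  C Z :=
    { carrier := {a | a ∈ S.C Z ∧ C.φ Z a ∈ T.C Z}
      add_mem' := fun {a b} ha hb => ⟨Submodule.add_mem _ ha.1 hb.1, by
        rw [map_add]; exact Submodule.add_mem _ ha.2 hb.2⟩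
      zero_mem' := ⟨Submodule.zero_mem _, by rw [map_zero]; exact Submodule.zero_mem _⟩
      smul_mem' := fun r a ha => ⟨Submodule.smul_mem _ _ ha.1, by
        rw [C.smul]; exact Submodule.smul_mem _ _ ha.2⟩ }
  even h := S.even h.1
  one Z := ⟨S.one Z, by rw [map_one]; exact T.one Z⟩
  mul h h' := ⟨S.mul h.1 h'.1, by rw [map_mul]; exact T.mul h.2 h'.2⟩
  map f _ h := ⟨S.map f h.1, by rw [C.map]; exact T.map f h.2⟩
  push f _ h := ⟨S.push f h.1, by rw [C.push]; exact T.push f h.2⟩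

lemma mem_ht {C : Cmpn W W'} {S : Sys W} {T : Sys W'} {a : W.H Z} :
    a ∈ (htSys C S T).C Z ↔ a ∈ S.C Z ∧ C.φ Z a ∈ T.C Z := Iff.rfl

lemma ht_alg {C : Cmpn W W'} {S : Sys W} {T : Sys W'} (hS : ∀ Z, algSpan W Z ≤ S.C Z)
    (hT : ∀ Z, algSpan W' Z ≤ T.C Z) (Z : 𝒱.Obj) : algSpan W Z ≤ (htSys C S T).C Z :=
  fun _ ha => ⟨hS Z ha, hT Z (C.alg ha)⟩

/-- The homogeneous classes of a system. -/
def predOf (S : Sys W) (hS : ∀ Z, algSpan W Z ≤ S.C Z) : ClassPred W where
  P Z j c := c ∈ S.C Z ∧ c ∈ W.gr Z (2 * j)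
  gr h := h.2
  zero := ⟨Submodule.zero_mem _, Submodule.zero_mem _⟩
  add h h' := ⟨Submodule.add_mem _ h.1 h'.1, Submodule.add_mem _ h.2 h'.2⟩
  smul r _ h := ⟨Submodule.smul_mem _ _ h.1, Submodule.smul_mem _ _ h.2⟩
  cl {Z j z} h := ⟨hS _ (Submodule.subset_span (Set.mem_iUnion.2 ⟨j, z, h, rfl⟩)), W.cl_mem h⟩
  mul {Z i j a b} h h' := ⟨S.mul h.1 h'.1, by
    have h1 := W.mul_mem h.2 h'.2
    rwa [← mul_add] at h1⟩
  map {Y Z} f {j a} h := ⟨S.map f h.1, W.map_mem f h.2⟩
  push {Y Z} f {j l} hl a h := ⟨S.push f h.1, by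
    have h2 := W.push_mem f h.2
    have e1 : ((2 * j : ℕ) : ℤ) + 2 * ((Z.dim : ℤ) - Y.dim) = ((2 * l : ℕ) : ℤ) := by
      push_cast; omega
    rw [e1, grZ_natCast] at h2
    exact h2⟩

/-- The inverse images under the extended comparison. -/
lemma exists_extP [Algebra W.K W'.K] (C : Cmpn W W')
    (h : ∀ r, C.emb r = algebraMap W.K W'.K r) (y : W'.H Y) : ∃ x, extP C h Y x = y :=
  (extCmp C h).surjective Function.surjective_id y

/-- Multiplication by the image of a class is injective if multiplication by the class is. -/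
lemma inj_cmp (C : Cmpn W W') {u : W.H Y} {i : ℕ} (hu : ∀ x ∈ W.gr Y i, u * x = 0 → x = 0)
    {y : W'.H Y} (hy : y ∈ W'.gr Y i) (h0 : C.φ Y u * y = 0) : y = 0 := by
  let _ : Algebra W.K W'.K := C.emb.toAlgebra
  have he : ∀ r, C.emb r = algebraMap W.K W'.K r := fun r => rfl
  obtain ⟨x, rfl⟩ := exists_extP C he y
  set x' : W'.K ⊗[W.K] W.H Y := proj ((baseW W W'.K).isInternal Y) i x with hx'
  have hx'g : x' ∈ (W.gr Y i).baseChange W'.K :=
    proj_mem ((baseW W W'.K).isInternal Y) i x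
  have h1 : extP C he Y x' = extP C he Y x := by
    have h2 := (extCmp C he).proj i x
    have h3 : proj (W'.isInternal Y) i (extP C he Y x) = extP C he Y x := proj_same _ hy
    exact h2.trans h3
  rw [← h1] at h0 ⊢
  have h4 : extP C he Y (((1 : W'.K) ⊗ₜ[W.K] u) * x') = 0 := by
    rw [map_mul, extP_tmul, one_smul]
    exact h0
  have h5 : ((1 : W'.K) ⊗ₜ[W.K] u) * x' = 0 := (extCmp C he).inj h4
  have h6 : x' = 0 := by
    apply eq_zero_of_co
    intro ι
    apply hu _ (co_mem hx'g ι)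
    rw [← co_mul, h5, map_zero, Finsupp.zero_apply]
  rw [h6, map_zero]

section Act

variable {Γ : Type w} [Group Γ] {χ : Γ →* W'.Kˣ}
  {ρ : ∀ n, Γ →* (W'.H (pw X n) ≃ₐ[W'.K] W'.H (pw X n))}

/-- The inverses of the Lefschetz isomorphisms respect Tate classes. -/
lemma tate_lift (h : PowerAction W' X χ ρ) {n : ℕ} {D : (pw X n).Cycles}
    (hD : (pw X n).IsCyc 1 D) {j m : ℕ} {y : W'.H (pw X n)} (hy : y ∈ W'.gr (pw X n) (2 * j))
    (hinj : ∀ z ∈ W'.gr (pw X n) (2 * j), W'.cl _ D ^ m * z = 0 → z = 0)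
    (ht : W'.cl _ D ^ m * y ∈ tateClasses χ (W'.gr (pw X n)) (ρ n) (j + m)) :
    y ∈ tateClasses χ (W'.gr (pw X n)) (ρ n) j := by
  obtain ⟨-, Δ, hΔ, h1⟩ := ht
  obtain ⟨Δ', hΔ', h2⟩ := (h.galois n).cl_fix 1 _ ⟨D, hD, rfl⟩
  refine ⟨hy, Δ ⊓ Δ', inferInstance, fun g hg => ?_⟩
  have h3 := h1 g hg.1
  rw [map_mul, map_pow, h2 g hg.2, pow_one, smul_pow, smul_mul_assoc, add_comm j m, pow_add,
    mul_smul] at h3
  have hχ : ((χ g : W'.K)) ^ m ≠ 0 := pow_ne_zero _ (Units.ne_zero _)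
  have h4 := smul_right_injective _ hχ h3
  rw [← sub_eq_zero]
  apply hinj _ (Submodule.sub_mem _ ((h.galois n).gr_mem g _ y hy)
    (Submodule.smul_mem _ _ hy))
  rw [mul_sub, mul_smul_comm, sub_eq_zero]
  exact h4

variable [Algebra W.K ℝ] (Ψ : HodgeSystem W) (C : Cmpn W W')

/-- **The classes which are Hodge classes and Tate classes form a nondegenerate system.** -/
theorem ht_nondeg (h : PowerAction W' X χ ρ) (n : ℕ) :
    Sys.Nondeg (htSys C (hodgeSys Ψ) (extSys (powSys_TG h))) (pw X n) := by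
  set S := htSys C (hodgeSys Ψ) (extSys (powSys_TG h)) with hS
  have hSa : ∀ Z, algSpan W Z ≤ S.C Z := ht_alg (alg_le_hodge Ψ) (extSys_alg _)
  set Q := predOf S hSa with hQ
  have hproj : ∀ a ∈ S.C (pw X n), ∀ j, Q.P (pw X n) j (proj (W.isInternal (pw X n)) (2 * j) a) := by
    intro a ha j
    refine ⟨⟨hodgeSpan.of (hodgeSpan.proj ha.1 j), ?_⟩, proj_mem _ _ _⟩
    rw [C.proj, extSys_pw]
    have h1 := ha.2
    rw [extSys_pw] at h1
    exact Submodule.mem_iSup_of_mem j (TG_proj h1 j)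
  obtain ⟨D, hD, hHL, hpos⟩ := Ψ.polar (pw X n)
  have hHR : Q.HR (pw X n) D := by
    refine ⟨hD, ?_, ?_⟩
    · intro j hj v hv
      have hv1 : Pool.Agent.Y133.Half.IsHodge Ψ (pw X n) ((pw X n).dim - j) v := by
        have h1 := hodgeSpan.proj hv.1.1 ((pw X n).dim - j)
        rwa [proj_same _ hv.2] at h1
      obtain ⟨x, hx, hxv⟩ := hodge_lift hD hHL hj hv1
      refine ⟨x, ⟨⟨hodgeSpan.of hx, ?_⟩, hx.1⟩, hxv⟩
      rw [extSys_pw]
      have h2 : C.φ (pw X n) v ∈ tateClasses χ (W'.gr (pw X n)) (ρ n) ((pw X n).dim - j) := by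
        have h3 := hv.1.2
        rw [extSys_pw] at h3
        have h4 := TG_proj h3 ((pw X n).dim - j)
        rwa [proj_same _ (C.gr _ _ _ hv.2)] at h4
      refine Submodule.mem_iSup_of_mem j (tate_lift h hD (m := (pw X n).dim - 2 * j)
        (C.gr _ _ _ hx.1) (fun z hz hz0 => ?_) ?_)
      · refine inj_cmp C (u := W.cl _ D ^ ((pw X n).dim - 2 * j))
          (fun x hx h0 => hl_inj hHL hj hx h0) hz ?_
        rw [map_pow, C.cl]
        exact hz0
      · rw [← C.cl, ← map_pow, ← map_mul, hxv]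
        rwa [show j + ((pw X n).dim - 2 * j) = (pw X n).dim - j by omega]
    · intro j hj x hx
      have hx1 : Pool.Agent.Y133.Half.IsHodge Ψ (pw X n) j x := by
        have h1 := hodgeSpan.proj hx.1.1 j
        rwa [proj_same _ hx.2] at h1
      exact hpos j hj x hx1.1 hx1.2
  intro x hx hxy
  have hle : ∀ a ∈ S.C (pw X n), a ∈ Q.sys.C (pw X n) := by
    intro a ha
    have hN : ∀ i, 2 * (pw X n).dim + 1 ≤ i → W.gr (pw X n) i = ⊥ :=
      fun i hi => W.gr_eq_bot (pw X n) i (by omega)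
    have h1 := LinearMap.congr_fun (sum_proj (W.isInternal (pw X n)) hN) a
    rw [LinearMap.sum_apply, Module.End.one_apply] at h1
    rw [← h1]
    refine Submodule.sum_mem _ fun i _ => ?_
    rcases Nat.even_or_odd i with ⟨j, hj⟩ | ⟨j, hj⟩
    · obtain rfl : i = 2 * j := by omega
      exact ClassPred.sp_of (hproj a ha j)
    · have h2 : proj (W.isInternal (pw X n)) i a = 0 := by
        refine PH.ind (p := fun c => proj (W.isInternal (pw X n)) i c = 0) ?_ ?_ ?_ (S.even ha)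
        · intro l hl x hx
          exact proj_ne _ hx (by omega)
        · rw [map_zero]
        · intro x y hx hy
          rw [map_add, hx, hy, add_zero]
      rw [h2]
      exact Submodule.zero_mem _
  have hge : ∀ a ∈ Q.sys.C (pw X n), a ∈ S.C (pw X n) := by
    intro a ha
    refine ClassPred.sp_ind (Q := Q) (q := fun a => a ∈ S.C (pw X n)) ?_ ?_ ?_ ha
    · intro j x hx; exact hx.1
    · exact Submodule.zero_mem _
    · intro a b ha hb; exact Submodule.add_mem _ ha hb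
  exact hHR.nondeg x (hle x hx) fun y hy => hxy y (hge y hy)

end Act

/-- Nondegeneracy after the extension of the coefficients. -/
lemma push_nondeg (C : Cmpn W W') {S : Sys W} (hS : Sys.Nondeg S Z) :
    Sys.Nondeg (pushSys C S) Z := by
  let _ : Algebra W.K W'.K := C.emb.toAlgebra
  have he : ∀ r, C.emb r = algebraMap W.K W'.K r := fun r => rfl
  intro y hy hyz
  obtain ⟨x, hx, rfl⟩ : ∃ x ∈ (S.C Z).baseChange W'.K, extP C he Z x = y := by
    have hy' : y ∈ Submodule.span W'.K (C.φ Z '' (S.C Z)) := hy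
    clear hy hyz
    induction hy' using Submodule.span_induction with
    | mem x hx =>
      obtain ⟨a, ha, rfl⟩ := hx
      exact ⟨(1 : W'.K) ⊗ₜ[W.K] a, Submodule.tmul_mem_baseChange_of_mem _ ha, by
        rw [extP_tmul, one_smul]⟩
    | zero => exact ⟨0, Submodule.zero_mem _, map_zero _⟩
    | add x y _ _ hx hy =>
      obtain ⟨x', hx', rfl⟩ := hx
      obtain ⟨y', hy', rfl⟩ := hy
      exact ⟨x' + y', Submodule.add_mem _ hx' hy', map_add _ _ _⟩
    | smul r x _ hx =>
      obtain ⟨x', hx', rfl⟩ := hx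
      exact ⟨r • x', Submodule.smul_mem _ _ hx', extP_smul C he r x'⟩
  have h1 : x = 0 := by
    apply eq_zero_of_co
    intro ι
    apply hS _ (co_mem hx ι)
    intro s hs
    have h2 := hyz (C.φ Z s) (pushSys_mem C hs)
    have h3 : formBase W'.K (W.tr Z) (x * ((1 : W'.K) ⊗ₜ[W.K] s)) = 0 := by
      have h4 := (extCmp C he).tr Z (x * ((1 : W'.K) ⊗ₜ[W.K] s) : W'.K ⊗[W.K] W.H Z)
      have h5 : extP C he Z (x * ((1 : W'.K) ⊗ₜ[W.K] s)) = extP C he Z x * C.φ Z s := by
        rw [map_mul, extP_tmul, one_smul]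
      have h6 : W'.tr Z (extP C he Z (x * ((1 : W'.K) ⊗ₜ[W.K] s))) = 0 := by
        rw [h5]; exact h2
      exact h4.symm.trans h6
    rw [← co_tr, h3, map_zero, Finsupp.zero_apply]
  rw [h1, map_zero]

/-- The dimension does not change. -/
lemma push_finrank (C : Cmpn W W') (S : Sys W) (Z : 𝒱.Obj) :
    finrank W'.K ((pushSys C S).C Z) = finrank W.K (S.C Z) := by
  let _ : Algebra W.K W'.K := C.emb.toAlgebra
  have he : ∀ r, C.emb r = algebraMap W.K W'.K r := fun r => rfl
  let f : W'.K ⊗[W.K] W.H Z →ₗ[W'.K] W'.H Z :=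
    { toFun := extP C he Z
      map_add' := map_add _
      map_smul' := extP_smul C he }
  have hf : Function.Injective f := (extCmp C he).injective Z
  have h1 : (pushSys C S).C Z = ((S.C Z).baseChange W'.K).map f := by
    apply le_antisymm
    · refine Submodule.span_le.2 ?_
      rintro _ ⟨a, ha, rfl⟩
      exact ⟨(1 : W'.K) ⊗ₜ[W.K] a, Submodule.tmul_mem_baseChange_of_mem _ ha,
        (extP_tmul C he 1 a).trans (one_smul _ _)⟩
    · rintro _ ⟨x, hx, rfl⟩
      refine base_induction (P := fun x => f x ∈ (pushSys C S).C Z) ?_ ?_ ?_ hx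
      · rw [map_zero]; exact Submodule.zero_mem _
      · intro x y hx hy
        rw [map_add]; exact Submodule.add_mem _ hx hy
      · intro l a ha
        have h2 : f (l ⊗ₜ[W.K] a) = l • C.φ Z a := extP_tmul C he l a
        rw [h2]
        exact Submodule.smul_mem _ _ (pushSys_mem C ha)
  rw [h1, ← Pool.Agent.Y129.finrank_baseChange W'.K (S.C Z)]
  exact (Submodule.equivMapOfInjective f hf _).finrank_eq.symm

/-- Point classes in a theory with Hodge structures. -/
lemma pts_hodge [Algebra W.K ℝ] [Nontrivial (W.H X)] (Ψ : HodgeSystem W) : Pts W X := by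
  intro Z hZ
  have hnt : Nontrivial (W.H Z) := hZ.nontrivial
  obtain ⟨D, hD, -, hpos⟩ := Ψ.polar Z
  have h1 := hpos 0 (Nat.zero_le _) 1 (W.one_mem Z) (fun t => by
    rw [mul_zero, pow_zero, one_smul]
    exact map_one (Ψ.h Z t)) (by
      have h2 : W.cl Z D ^ (Z.dim - 2 * 0 + 1) ∈ W.gr Z (2 * (Z.dim + 1)) := by
        have h3 : ∀ m, W.cl Z D ^ m ∈ W.gr Z (2 * m) := by
          intro m
          induction m with
          | zero => rw [pow_zero]; exact W.one_mem Z
          | succ m ih =>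
            rw [pow_succ]
            have h4 := W.mul_mem ih (W.cl_mem hD)
            rwa [← mul_add] at h4
        exact h3 _
      rw [mul_one]
      rw [W.gr_eq_bot Z _ (by omega)] at h2
      exact (Submodule.mem_bot _).1 h2) one_ne_zero
  rw [pow_zero, one_mul, mul_one, mul_one, mul_zero, Nat.sub_zero] at h1
  have h2 : W.tr Z (W.cl Z D ^ Z.dim) ≠ 0 := by
    intro h3
    rw [h3, map_zero] at h1
    exact lt_irrefl _ h1
  have h3 : W.cl Z D ^ Z.dim ∈ algSpan W Z := by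
    have h4 : ∀ m, W.cl Z D ^ m ∈ algSpan W Z := by
      intro m
      induction m with
      | zero => rw [pow_zero]; exact (algSys W).one Z
      | succ m ih =>
        rw [pow_succ]
        exact (algSys W).mul ih (Submodule.subset_span (Set.mem_iUnion.2 ⟨1, D, hD, rfl⟩))
    exact h4 _
  have h4 : W.cl Z D ^ Z.dim ∈ W.gr Z (2 * Z.dim) := by
    have h5 : ∀ m, W.cl Z D ^ m ∈ W.gr Z (2 * m) := by
      intro m
      induction m with
      | zero => rw [pow_zero]; exact W.one_mem Z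
      | succ m ih =>
        rw [pow_succ]
        have h4 := W.mul_mem ih (W.cl_mem hD)
        rwa [← mul_add] at h4
    exact h5 _
  refine ⟨(W.tr Z (W.cl Z D ^ Z.dim))⁻¹ • W.cl Z D ^ Z.dim, Submodule.smul_mem _ _ h3,
    Submodule.smul_mem _ _ h4, ?_⟩
  rw [map_smul, smul_eq_mul, inv_mul_cancel₀ h2]

lemma Pts.cmp (C : Cmpn W W') (h : Pts W X) : Pts W' X := by
  intro Z hZ
  obtain ⟨z, h1, h2, h3⟩ := h Z hZ
  exact ⟨C.φ Z z, C.alg h1, C.gr _ _ _ h2, by rw [C.tr, h3, map_one]⟩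

end Pool.Agent.V7H5.TS
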