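import Pool.Agent.V7H5.TS.Nd
import Pool.Agent.V7H5.TS.Defs

/-!
# The comparison with the theory with extended coefficients
-/

open CategoryTheory AlgebraicGeometry TensorProduct Filter Topology

open scoped ENNReal

universe u v w

namespace Pool.Agent.V7H5.TS

open Module
open Pool.Agent.H914 Pool.Agent.H914.VarClass Pool.Agent.H914.VarClass.Obj
  Pool.Agent.H914.WeilCohomology Pool.Agent.H281R3.HT Pool.Agent.TH125.Gal
open Pool.Agent.V7H5.TI hiding IsTate DensityZero
open Pool.Agent.V7H5.TH hiding HodgeInTate TateInHodge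
open Pool.Agent.Y133.Half hiding pw cycRank IsHodge hodgeDim HodgeIn algDim tateDim
open Pool.Agent.Y129 (pw TG PowerAction tateClasses)
open Pool.Agent.Y133.Hdg (HodgeStr IsHodge)

variable {k : Type u} [Field k] {𝒱 : VarClass k} {ops : CycleOps 𝒱}
  {W W' : WeilCohomology.{u, v} ops} {X Y Z : 𝒱.Obj}

section Unit

variable (W) (F : Type v) [Field F] [Algebra W.K F]

/-- The comparison with the theory with extended coefficients. -/
noncomputable def unitCmp : Cmpn W (baseW W F) where
  emb := algebraMap W.K F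
  φ Y := ((Algebra.TensorProduct.includeRight : W.H Y →ₐ[W.K] F ⊗[W.K] W.H Y) :
    W.H Y →+* F ⊗[W.K] W.H Y)
  smul Y r x := by
    have h1 : (1 : F) ⊗ₜ[W.K] (r • x) = (algebraMap W.K F r) • ((1 : F) ⊗ₜ[W.K] x) := by
      rw [algebraMap_smul, TensorProduct.tmul_smul]
    exact h1
  gr Y i x hx := Submodule.tmul_mem_baseChange_of_mem _ hx
  map Y Z f x := by
    have h1 : ((1 : F) ⊗ₜ[W.K] (W.map f x) : F ⊗[W.K] W.H Y) =
        mapBase F (W.map f) ((1 : F) ⊗ₜ[W.K] x) := by
      rw [Algebra.TensorProduct.map_tmul]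
      rfl
    exact h1
  tr Y x := by
    have h1 : formBase F (W.tr Y) ((1 : F) ⊗ₜ[W.K] x) = algebraMap W.K F (W.tr Y x) := by
      rw [formBase_tmul, one_mul]
    exact h1
  cl Y z := rfl
  span Y := by
    rw [eq_top_iff]
    intro x _
    refine tmul_induction (P := fun x : F ⊗[W.K] W.H Y => x ∈ Submodule.span F
      (Set.range fun a : W.H Y => (1 : F) ⊗ₜ[W.K] a)) ?_ ?_ ?_ x
    · exact Submodule.zero_mem _
    · intro x y hx hy
      exact Submodule.add_mem _ hx hy
    · intro l a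
      have h1 : (l ⊗ₜ[W.K] a : F ⊗[W.K] W.H Y) = l • ((1 : F) ⊗ₜ[W.K] a) := by
        rw [TensorProduct.smul_tmul', smul_eq_mul, mul_one]
      rw [h1]
      exact Submodule.smul_mem _ _ (Submodule.subset_span ⟨a, rfl⟩)

variable {W F}

lemma push_unit (S : Sys W) (Z : 𝒱.Obj) {c : F ⊗[W.K] W.H Z}
    (hc : c ∈ (pushSys (unitCmp W F) S).C Z) : c ∈ (S.C Z).baseChange F := by
  have h1 : (pushSys (unitCmp W F) S).C Z ≤ ((S.C Z).baseChange F : Submodule F _) := by
    refine Submodule.span_le.2 ?_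
    rintro _ ⟨a, ha, rfl⟩
    exact Submodule.tmul_mem_baseChange_of_mem _ ha
  exact h1 hc

end Unit

end Pool.Agent.V7H5.TS
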